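import Pool.Agent.H770.GS.TA

/-!
# Project TA, part TA-5: `S_I1` (helper357 for helper770)

The integral is written as `G v` for an explicit function `G` with `G 0 = 0` and `G' ≥ 0` on `[0, v]`.
-/

set_option autoImplicit false

open MeasureTheory Set intervalIntegral

namespace Pool.Agent.H357.GSI1

open Pool.Agent.H770.GS

/-- primitive of `e^(-t²)` -/
noncomputable def Ph (x : ℝ) : ℝ := ∫ t in (0:ℝ)..x, Real.exp (-t ^ 2)

/-- primitive of `W` -/
noncomputable def Ps (x : ℝ) : ℝ := ∫ t in (0:ℝ)..x, W t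

theorem cont_e : Continuous fun t : ℝ => Real.exp (-t ^ 2) := by fun_prop

theorem Ph_deriv (x : ℝ) : HasDerivAt Ph (Real.exp (-x ^ 2)) x :=
  (cont_e.integral_hasStrictDerivAt 0 x).hasDerivAt

theorem Ps_deriv (x : ℝ) : HasDerivAt Ps (W x) x :=
  (W_cont.integral_hasStrictDerivAt 0 x).hasDerivAt

theorem Ph_sub (h y : ℝ) : Ph (h + y / 2) - Ph (h - y / 2) =
    ∫ s in (-(y / 2))..(y / 2), Real.exp (-(h + s) ^ 2) := by
  unfold Ph
  rw [intervalIntegral.integral_interval_sub_left (cont_e.intervalIntegrable _ _)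
    (cont_e.intervalIntegrable _ _)]
  rw [intervalIntegral.integral_comp_add_left (fun t => Real.exp (-t ^ 2)) h]
  rw [← sub_eq_add_neg]

/-- the comparison of the two Gaussian integrals -/
theorem comp_int {r v y : ℝ} (hy : 0 ≤ y) (hyv : y ≤ v) (hvr : v ≤ r) :
    Real.exp (-y ^ 2 / 4) * (Ph (r + y / 2) - Ph (r - y / 2)) ≤
      W v * Real.exp (y ^ 2 / 4) * (Ph ((r - v) + y / 2) - Ph ((r - v) - y / 2)) := by
  rw [Ph_sub, Ph_sub, ← intervalIntegral.integral_const_mul, ← intervalIntegral.integral_const_mul]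
  apply intervalIntegral.integral_mono_on (by linarith)
  · apply Continuous.intervalIntegrable; fun_prop
  · apply Continuous.intervalIntegrable; fun_prop
  · intro s hs
    unfold W
    rw [← Real.exp_add, ← Real.exp_add, ← Real.exp_add]
    apply Real.exp_le_exp.2
    have h1 : -(y / 2) ≤ s := hs.1
    nlinarith [mul_nonneg (by linarith : 0 ≤ v) (by linarith : 0 ≤ (r + s) - (v - y / 2)),
      sq_nonneg (v - y)]

/-- the auxiliary function -/
noncomputable def G (r v y : ℝ) : ℝ :=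
  W v * (2 * Real.exp (y ^ 2 / 4) * (Ph ((r - v) + y / 2) - Ph ((r - v) - y / 2)) -
    Real.exp (-(r - v) ^ 2) * (Real.exp ((r - v) * y) - Real.exp (-((r - v) * y))) / (r - v)) +
  2 * Real.exp (-y ^ 2 / 4) * (Ph (r + y / 2) - Ph (r - y / 2)) -
  W r * (Ps (r + y) - Ps (r - y))

theorem G_zero (r v : ℝ) : G r v 0 = 0 := by
  unfold G
  simp

theorem dPh (h y : ℝ) : HasDerivAt (fun y => Ph (h + y / 2) - Ph (h - y / 2))
    (Real.exp (-(h + y / 2) ^ 2) / 2 + Real.exp (-(h - y / 2) ^ 2) / 2) y := by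
  have a1 : HasDerivAt (fun y : ℝ => h + y / 2) (1 / 2) y :=
    ((hasDerivAt_id y).div_const 2).const_add h
  have a2 : HasDerivAt (fun y : ℝ => h - y / 2) (-(1 / 2)) y :=
    ((hasDerivAt_id y).div_const 2).const_sub h
  have b1 := (Ph_deriv (h + y / 2)).comp y a1
  have b2 := (Ph_deriv (h - y / 2)).comp y a2
  have b3 := b1.sub b2
  refine b3.congr_deriv ?_
  ring

theorem dPs (r y : ℝ) : HasDerivAt (fun y => Ps (r + y) - Ps (r - y)) (W (r + y) + W (r - y)) y := by
  have a1 : HasDerivAt (fun y : ℝ => r + y) 1 y := (hasDerivAt_id y).const_add r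
  have a2 : HasDerivAt (fun y : ℝ => r - y) (-1) y := (hasDerivAt_id y).const_sub r
  have b1 := (Ps_deriv (r + y)).comp y a1
  have b2 := (Ps_deriv (r - y)).comp y a2
  have b3 := b1.sub b2
  refine b3.congr_deriv ?_
  ring

theorem dE1 (y : ℝ) : HasDerivAt (fun y : ℝ => 2 * Real.exp (y ^ 2 / 4)) (y * Real.exp (y ^ 2 / 4)) y := by
  have a1 : HasDerivAt (fun y : ℝ => y ^ 2 / 4) ((2 : ℕ) * y ^ (2 - 1) / 4) y :=
    (hasDerivAt_pow 2 y).div_const 4
  refine (a1.exp.const_mul 2).congr_deriv ?_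
  norm_num
  ring

theorem dE2 (y : ℝ) : HasDerivAt (fun y : ℝ => 2 * Real.exp (-y ^ 2 / 4))
    (-(y * Real.exp (-y ^ 2 / 4))) y := by
  have a1 : HasDerivAt (fun y : ℝ => -y ^ 2 / 4) (-((2 : ℕ) * y ^ (2 - 1)) / 4) y :=
    (hasDerivAt_pow 2 y).neg.div_const 4
  refine (a1.exp.const_mul 2).congr_deriv ?_
  norm_num
  ring

theorem dE3 {h : ℝ} (hh : h ≠ 0) (y : ℝ) : HasDerivAt (fun y : ℝ =>
    Real.exp (-h ^ 2) * (Real.exp (h * y) - Real.exp (-(h * y))) / h)
    (Real.exp (-h ^ 2) * (Real.exp (h * y) + Real.exp (-(h * y)))) y := by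
  have a1 : HasDerivAt (fun y : ℝ => h * y) h y := by
    simpa using (hasDerivAt_id y).const_mul h
  have a0 : HasDerivAt (fun y : ℝ => -(h * y)) (-h) y := a1.neg
  have a2 := ((a1.exp.sub a0.exp).const_mul (Real.exp (-h ^ 2))).div_const h
  refine a2.congr_deriv ?_
  field_simp
  ring

theorem G_deriv {r v : ℝ} (hvr : v < r) (y : ℝ) : HasDerivAt (G r v)
    (y * (W v * Real.exp (y ^ 2 / 4) * (Ph ((r - v) + y / 2) - Ph ((r - v) - y / 2)) -
      Real.exp (-y ^ 2 / 4) * (Ph (r + y / 2) - Ph (r - y / 2)))) y := by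
  have hh : r - v ≠ 0 := by
    have : 0 < r - v := by linarith
    exact this.ne'
  have b1 := (((dE1 y).mul (dPh (r - v) y)).sub (dE3 hh y)).const_mul (W v)
  have b2 := (dE2 y).mul (dPh r y)
  have b3 := (dPs r y).const_mul (W r)
  have b4 := (b1.add b2).sub b3
  refine b4.congr_deriv ?_
  have i1 : Real.exp (y ^ 2 / 4) * Real.exp (-((r - v) + y / 2) ^ 2) =
      Real.exp (-(r - v) ^ 2) * Real.exp (-((r - v) * y)) := by
    rw [← Real.exp_add, ← Real.exp_add]
    congr 1
    ring
  have i2 : Real.exp (y ^ 2 / 4) * Real.exp (-((r - v) - y / 2) ^ 2) =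
      Real.exp (-(r - v) ^ 2) * Real.exp ((r - v) * y) := by
    rw [← Real.exp_add, ← Real.exp_add]
    congr 1
    ring
  have i3 : Real.exp (-y ^ 2 / 4) * Real.exp (-(r + y / 2) ^ 2) = W r * W (r + y) := by
    unfold W
    rw [← Real.exp_add, ← Real.exp_add]
    congr 1
    ring
  have i4 : Real.exp (-y ^ 2 / 4) * Real.exp (-(r - y / 2) ^ 2) = W r * W (r - y) := by
    unfold W
    rw [← Real.exp_add, ← Real.exp_add]
    congr 1
    ring
  linear_combination W v * i1 + W v * i2 + i3 + i4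

/-- the primitive of the integrand -/
noncomputable def J (r v a : ℝ) : ℝ :=
  W a * (W (v - a) - W r) / a - W r * Ps a + 2 * Real.exp (-v ^ 2 / 4) * Ph (a - v / 2)

theorem J_deriv (r v : ℝ) {a : ℝ} (ha : a ≠ 0) :
    HasDerivAt (J r v) (NR r v a * (W a / a ^ 2)) a := by
  have a1 : HasDerivAt (fun a : ℝ => v - a) (-1) a := (hasDerivAt_id a).const_sub v
  have a2 := ((W_deriv (v - a)).comp a a1).sub_const (W r)
  have a3 := ((W_deriv a).mul a2).div (hasDerivAt_id a) ha
  have a4 : HasDerivAt (fun a : ℝ => a - v / 2) 1 a := (hasDerivAt_id a).sub_const (v / 2)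
  have a5 := ((Ph_deriv (a - v / 2)).comp a a4).const_mul (2 * Real.exp (-v ^ 2 / 4))
  have a6 := (a3.sub ((Ps_deriv a).const_mul (W r))).add a5
  refine a6.congr_deriv ?_
  have i1 : Real.exp (-v ^ 2 / 4) * Real.exp (-(a - v / 2) ^ 2) = W a * W (v - a) := by
    unfold W
    rw [← Real.exp_add, ← Real.exp_add]
    congr 1
    ring
  have i2 : 2 * Real.exp (-v ^ 2 / 4) * (Real.exp (-(a - v / 2) ^ 2) * 1) =
      2 * (W a * W (v - a)) := by
    rw [← i1]; ring
  rw [i2]
  unfold NR
  simp only [Pi.mul_apply, Function.comp_apply, id_eq]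
  field_simp
  ring

theorem J_sub {r v : ℝ} (hvr : v < r) : J r v (r + v) - J r v (r - v) = G r v v := by
  have hh : r - v ≠ 0 := by
    have : 0 < r - v := by linarith
    exact this.ne'
  unfold J G
  have e1 : v - (r + v) = -r := by ring
  have e2 : r + v - v / 2 = r + v / 2 := by ring
  have e3 : r - v - v / 2 = (r - v) - v / 2 := rfl
  have e4 : r - v + v / 2 = r - v / 2 := by ring
  rw [e1, W_even, e2, e4]
  have i1 : W v * Real.exp (v ^ 2 / 4) = Real.exp (-v ^ 2 / 4) := by
    unfold W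
    rw [← Real.exp_add]
    congr 1
    ring
  have i2 : W v * Real.exp (-(r - v) ^ 2) * Real.exp ((r - v) * v) = W (r - v) * W (v - (r - v)) := by
    unfold W
    rw [← Real.exp_add, ← Real.exp_add, ← Real.exp_add]
    congr 1
    ring
  have i3 : W v * Real.exp (-(r - v) ^ 2) * Real.exp (-((r - v) * v)) = W (r - v) * W r := by
    unfold W
    rw [← Real.exp_add, ← Real.exp_add, ← Real.exp_add]
    congr 1
    ring
  have i4 : W v * (Real.exp (-(r - v) ^ 2) * (Real.exp ((r - v) * v) - Real.exp (-((r - v) * v))) /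
      (r - v)) = W (r - v) * (W (v - (r - v)) - W r) / (r - v) := by
    rw [← mul_div_assoc]
    congr 1
    linear_combination i2 - i3
  rw [mul_sub (W v), i4]
  have i5 : W v * (2 * Real.exp (v ^ 2 / 4) * (Ph (r - v / 2) - Ph (r - v - v / 2))) =
      2 * Real.exp (-v ^ 2 / 4) * (Ph (r - v / 2) - Ph (r - v - v / 2)) := by
    rw [← i1]; ring
  rw [i5]
  ring

/-- **S_I1** -/
theorem t_I1 : S_I1 := by
  intro r v hv hvr
  have hpos : ∀ a ∈ uIcc (r - v) (r + v), a ≠ 0 := by
    intro a ha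
    rw [uIcc_of_le (by linarith)] at ha
    have : 0 < a := by linarith [ha.1]
    exact this.ne'
  have hW := W_cont
  have hint : IntervalIntegrable (fun a => NR r v a * (W a / a ^ 2)) volume (r - v) (r + v) := by
    apply ContinuousOn.intervalIntegrable
    have c1 : Continuous fun a => NR r v a := by unfold NR; fun_prop
    refine c1.continuousOn.mul (hW.continuousOn.div (by fun_prop) ?_)
    intro a ha
    exact pow_ne_zero 2 (hpos a ha)
  rw [intervalIntegral.integral_eq_sub_of_hasDerivAt (fun a ha => J_deriv r v (hpos a ha)) hint,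
    J_sub hvr, ← G_zero r v]
  have hd := fun y => G_deriv (v := v) hvr y
  have hmono : MonotoneOn (G r v) (Icc 0 v) := by
    apply monotoneOn_of_deriv_nonneg (convex_Icc 0 v)
    · exact fun y _ => (hd y).continuousAt.continuousWithinAt
    · exact fun y _ => (hd y).differentiableAt.differentiableWithinAt
    · intro y hy
      rw [interior_Icc] at hy
      rw [(hd y).deriv]
      apply mul_nonneg hy.1.le
      have := comp_int hy.1.le hy.2.le hvr.le
      linarith
  exact hmono (left_mem_Icc.2 hv.le) (right_mem_Icc.2 hv.le) hv.le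

end Pool.Agent.H357.GSI1
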