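import Pool.Agent.H666.LRC.Defs3

/-! U5 of the project LRC (owner helper666): a uniform bound for the covariances. -/

open Filter Topology MeasureTheory

namespace Pool.Agent.H357.LRC

open Pool.Agent.H666.LRC

theorem U5 : Pool.Agent.H666.LRC.S_cvbound := by
  intro a K0 hK0 hev
  obtain ⟨N0, hN0⟩ := eventually_atTop.1 hev
  refine eventually_atTop.2 ⟨max N0 1, ?_⟩
  intro N hN k hk
  have hN0N : N0 ≤ N := le_trans (le_max_left _ _) hN
  have hN1 : 1 ≤ N := le_trans (le_max_right _ _) hN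
  have hNpos : (0 : ℝ) < N := by exact_mod_cast hN1
  have h1 : ∑ n ∈ Finset.Icc 1 N, a n ^ 2 ≤ K0 * N := hN0 N hN0N
  have h2 : ∑ n ∈ Finset.Icc 1 (2 * N), a n ^ 2 ≤ K0 * ((2 * N : ℕ) : ℝ) := hN0 (2 * N) (by omega)
  have h2' : ((2 * N : ℕ) : ℝ) = 2 * (N : ℝ) := by push_cast; ring
  rw [h2'] at h2
  have h3 : ∑ n ∈ Finset.Icc 1 N, a (n + k) ^ 2 ≤ ∑ n ∈ Finset.Icc 1 (2 * N), a n ^ 2 := by
    have e1 : ∑ n ∈ Finset.Icc 1 N, a (n + k) ^ 2 =
        ∑ m ∈ (Finset.Icc 1 N).map (addRightEmbedding k), a m ^ 2 := by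
      rw [Finset.sum_map]
      rfl
    rw [e1]
    refine Finset.sum_le_sum_of_subset_of_nonneg ?_ ?_
    · intro m hm
      rw [Finset.mem_map] at hm
      obtain ⟨n, hn, rfl⟩ := hm
      rw [Finset.mem_Icc] at hn
      rw [Finset.mem_Icc]
      change 1 ≤ n + k ∧ n + k ≤ 2 * N
      omega
    · intro m _ _
      positivity
  have h4 : |∑ n ∈ Finset.Icc 1 N, a n * a (n + k)| ≤
      ∑ n ∈ Finset.Icc 1 N, (a n ^ 2 / 2 + a (n + k) ^ 2 / 2) := by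
    refine le_trans (Finset.abs_sum_le_sum_abs _ _) ?_
    refine Finset.sum_le_sum ?_
    intro n _
    rw [abs_le]
    constructor
    · nlinarith [sq_nonneg (a n + a (n + k))]
    · nlinarith [sq_nonneg (a n - a (n + k))]
  have h5 : ∑ n ∈ Finset.Icc 1 N, (a n ^ 2 / 2 + a (n + k) ^ 2 / 2) =
      (∑ n ∈ Finset.Icc 1 N, a n ^ 2) / 2 + (∑ n ∈ Finset.Icc 1 N, a (n + k) ^ 2) / 2 := by
    rw [Finset.sum_add_distrib, Finset.sum_div, Finset.sum_div]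
  have hKN : 0 ≤ K0 * (N : ℝ) := mul_nonneg hK0 hNpos.le
  have h6 : |∑ n ∈ Finset.Icc 1 N, a n * a (n + k)| ≤ 2 * K0 * N := by
    nlinarith
  have h7 : |cv a N k| = (1 / N : ℝ) * |∑ n ∈ Finset.Icc 1 N, a n * a (n + k)| := by
    unfold cv
    rw [abs_mul, abs_of_nonneg (by positivity : (0 : ℝ) ≤ 1 / (N : ℝ))]
  rw [h7]
  calc (1 / N : ℝ) * |∑ n ∈ Finset.Icc 1 N, a n * a (n + k)|
      ≤ (1 / N : ℝ) * (2 * K0 * N) := mul_le_mul_of_nonneg_left h6 (by positivity)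
    _ = 2 * K0 := by
        field_simp

end Pool.Agent.H357.LRC
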