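import Mathlib
import Pool.Graph.R_seed8.H72R2.Gar

set_option autoImplicit false

/-!
# Near-linear growth of chains below the powers of a Garside element

`Pd d D u v m c`: in the interval from `u` to `v` (and its shifts by powers of `d`) there is no
chain of `m` steps, each longer than `D * 2 ^ c`, of total length at most `(D + 1) * 2 ^ c`
(lengths are measured in powers of `d`).
-/

namespace Pool.Agent.H357.NearLin

open Pool.Agent.H72R2.Gar

variable {M : Type} [Monoid M] {d : M}

/-- no chain of `m` long steps at scale `c` between (shifts of) `u` and `v` -/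
def Pd (d : M) (D : ℕ) (u v : M) (m c : ℕ) : Prop :=
  ∀ (N : ℕ) (z : ℕ → M), u * d ^ N ∣ z 0 → (∀ i < m, z i ∣ z (i + 1)) →
    (∀ i < m, ¬ z (i + 1) ∣ z i * d ^ (D * 2 ^ c)) → z m ∣ v * d ^ N →
    ¬ z m ∣ z 0 * d ^ ((D + 1) * 2 ^ c)

/-- the level potential -/
def G (d : M) (D : ℕ) (u v : M) (c j : ℕ) (q : M) : Prop :=
  ∀ (N : ℕ) (x : M), x ∣ v * d ^ N → x ∣ u * d ^ (N + j * 2 ^ c + D * 2 ^ c) →
    x ∣ q * d ^ (N + D * 2 ^ c)

theorem G_mono (h : IsGar d) {D : ℕ} {u v : M} {c j : ℕ} {q q' : M} (hq : q ∣ q')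
    (hG : G d D u v c j q) : G d D u v c j q' :=
  fun N x h1 h2 => (hG N x h1 h2).trans (h.dvd_mul_pow _ hq)

theorem G_anti {D : ℕ} {u v : M} {c j : ℕ} {q : M}
    (hG : G d D u v c (j + 1) q) : G d D u v c j q := by
  intro N x h1 h2
  refine hG N x h1 (h2.trans (mul_pow_dvd ?_))
  have : j * 2 ^ c ≤ (j + 1) * 2 ^ c := Nat.mul_le_mul (by omega) le_rfl
  omega

theorem G_zero (h : IsGar d) {D : ℕ} {u v : M} {c : ℕ} {q : M} (hq : u ∣ q) :
    G d D u v c 0 q := by
  intro N x _ h2
  refine h2.trans ?_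
  simpa using h.dvd_mul_pow (N + D * 2 ^ c) hq

/-- `d`-powers commute past each other -/
theorem mul_pow_comm' (x : M) (a b : ℕ) : x * d ^ a * d ^ b = x * d ^ b * d ^ a := by
  rw [mul_assoc, mul_assoc, ← pow_add, ← pow_add, add_comm]

/-- **Blocks.** If no potential at scale `c` changes between `p` and `q`, then a chain of `m`
long steps between `p` and `q` can be prolonged by one step. -/
theorem block (h : IsGar d) {D : ℕ} {u v p q : M} {m c F : ℕ}
    (hP : Pd d D u v (m + 1) c) (hup : u ∣ p) (hqv : q ∣ v)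
    (hconst : ∀ j, 1 ≤ j → j ≤ F → (G d D u v c j p ↔ G d D u v c j q))
    (hF : v ∣ u * d ^ (F * 2 ^ c + D * 2 ^ c))
    (hnot : ¬ q ∣ p * d ^ (D * 2 ^ c)) : Pd d D p q m c := by
  classical
  intro N z hz0 hz1 hz2 hz3 hz4
  by_cases hall : ∀ j, 1 ≤ j → j ≤ F → G d D u v c j p
  · -- all levels are reached
    have hGF : G d D u v c F p := by
      rcases Nat.eq_zero_or_pos F with h0 | h0
      · rw [h0]; exact G_zero h hup
      · exact hall F h0 le_rfl
    have h1 := hGF 0 v (by simp) (by simpa using hF)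
    rw [Nat.zero_add] at h1
    exact hnot (hqv.trans h1)
  · push Not at hall
    have hex : ∃ j, 1 ≤ j ∧ j ≤ F ∧ ¬ G d D u v c j p := hall
    set j := Nat.find hex with hj
    obtain ⟨hj1, hj2, hj3⟩ := Nat.find_spec hex
    rw [← hj] at hj1 hj2 hj3
    obtain ⟨j', rfl'⟩ : ∃ j', j = j' + 1 := ⟨j - 1, by omega⟩
    have hprev : G d D u v c j' p := by
      rcases Nat.eq_zero_or_pos j' with h0 | h0
      · rw [h0]; exact G_zero h hup
      · by_contra hcon
        have := Nat.find_min' hex ⟨h0, by omega, hcon⟩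
        omega
    have hq : ¬ G d D u v c j q := fun hc => hj3 ((hconst j hj1 hj2).2 hc)
    rw [G] at hq
    push Not at hq
    obtain ⟨N', x, hx1, hx2, hx3⟩ := hq
    obtain ⟨J, hJ1, hJ2, hJ3⟩ := h.join (z m * d ^ N') (x * d ^ N)
    have hzmono : ∀ i, i ≤ m → z 0 ∣ z i := fun i hi => chain_dvd hz1 (Nat.zero_le i) hi
    -- the prolonged chain
    refine hP (N + N') (fun i => if i ≤ m then z i * d ^ N' else J) ?_ ?_ ?_ ?_ ?_
    · simp only [Nat.zero_le, if_true]
      rw [pow_add, ← mul_assoc]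
      exact h.dvd_mul_pow N' ((h.dvd_mul_pow N hup).trans hz0)
    · intro i hi
      by_cases him : i + 1 ≤ m
      · simp only [if_pos him, if_pos (show i ≤ m by omega)]
        exact h.dvd_mul_pow N' (hz1 i (by omega))
      · have : i = m := by omega
        subst this
        simp only [le_refl, if_true, if_neg him]
        exact hJ1
    · intro i hi
      by_cases him : i + 1 ≤ m
      · simp only [if_pos him, if_pos (show i ≤ m by omega)]
        intro hc
        rw [mul_pow_comm'] at hc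
        exact hz2 i (by omega) (h.of_dvd_mul_pow N' hc)
      · have : i = m := by omega
        subst this
        simp only [le_refl, if_true, if_neg him]
        intro hc
        have h1 : x * d ^ N ∣ z i * d ^ N' * d ^ (D * 2 ^ c) := hJ2.trans hc
        have h2 : z i * d ^ N' * d ^ (D * 2 ^ c) ∣ q * d ^ N * d ^ N' * d ^ (D * 2 ^ c) :=
          h.dvd_mul_pow _ (h.dvd_mul_pow _ hz3)
        have h3 : q * d ^ N * d ^ N' * d ^ (D * 2 ^ c) = q * d ^ (N' + D * 2 ^ c) * d ^ N := by
          rw [mul_assoc, mul_assoc, mul_assoc, ← pow_add, ← pow_add, ← pow_add, add_comm N]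
        have h4 := h1.trans h2
        rw [h3] at h4
        exact hx3 (h.of_dvd_mul_pow N h4)
    · simp only [if_neg (show ¬ m + 1 ≤ m by omega)]
      refine hJ3 _ ?_ ?_
      · rw [pow_add, ← mul_assoc]
        exact h.dvd_mul_pow N' (hz3.trans (h.dvd_mul_pow N hqv))
      · rw [add_comm, pow_add, ← mul_assoc]
        exact h.dvd_mul_pow N hx1
    · simp only [if_neg (show ¬ m + 1 ≤ m by omega), Nat.zero_le, if_true]
      refine hJ3 _ ?_ ?_
      · rw [mul_pow_comm']
        exact h.dvd_mul_pow N' hz4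
      · have h1 := hprev (N' + 2 ^ c) x (hx1.trans (mul_pow_dvd (Nat.le_add_right _ _))) (by
          refine hx2.trans (mul_pow_dvd ?_)
          rw [rfl']
          have : (j' + 1) * 2 ^ c = j' * 2 ^ c + 2 ^ c := by ring
          omega)
        have h2 := h.dvd_mul_pow N h1
        have h3 : p * d ^ (N' + 2 ^ c + D * 2 ^ c) * d ^ N =
            p * d ^ N * d ^ (N' + (D + 1) * 2 ^ c) := by
          rw [mul_assoc, mul_assoc, ← pow_add, ← pow_add]
          congr 2
          ring
        rw [h3] at h2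
        refine h2.trans ((h.dvd_mul_pow _ hz0).trans ?_)
        rw [pow_add, ← mul_assoc]

/-- disjoint long intervals give a chain of long steps -/
theorem chain_of_intervals (h : IsGar d) {S n : ℕ} {q : ℕ → M} (hq : ∀ i < n, q i ∣ q (i + 1))
    (A : Finset ℕ) (lo hi : ℕ → ℕ) (h1 : ∀ y ∈ A, lo y ≤ hi y) (h2 : ∀ y ∈ A, hi y ≤ n)
    (h3 : ∀ y ∈ A, ∀ y' ∈ A, y < y' → hi y ≤ lo y')
    (h4 : ∀ y ∈ A, ¬ q (hi y) ∣ q (lo y) * d ^ S) :
    ∃ r : ℕ → M, r 0 = q 0 ∧ (∀ i < A.card, r i ∣ r (i + 1)) ∧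
      (∀ i < A.card, ¬ r (i + 1) ∣ r i * d ^ S) ∧
      (∀ k ≤ n, (∀ y ∈ A, hi y ≤ k) → r A.card ∣ q k) := by
  classical
  induction A using Finset.induction_on_max with
  | empty =>
    refine ⟨fun _ => q 0, rfl, by simp, by simp, fun k hk _ => ?_⟩
    exact chain_dvd hq (Nat.zero_le k) hk
  | insert y A hmax ih =>
    have hyA : y ∉ A := fun hy => lt_irrefl _ (hmax y hy)
    obtain ⟨r, r0, r1, r2, r3⟩ := ih (fun y' hy' => h1 y' (Finset.mem_insert_of_mem hy'))
      (fun y' hy' => h2 y' (Finset.mem_insert_of_mem hy'))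
      (fun y' hy' y'' hy'' => h3 y' (Finset.mem_insert_of_mem hy') y''
        (Finset.mem_insert_of_mem hy''))
      (fun y' hy' => h4 y' (Finset.mem_insert_of_mem hy'))
    have hylo := h1 y (Finset.mem_insert_self _ _)
    have hyhi := h2 y (Finset.mem_insert_self _ _)
    have hbel : ∀ y' ∈ A, hi y' ≤ lo y := fun y' hy' =>
      h3 y' (Finset.mem_insert_of_mem hy') y (Finset.mem_insert_self _ _) (hmax y' hy')
    rw [Finset.card_insert_of_notMem hyA]
    refine ⟨fun i => if i ≤ A.card then r i else q (hi y), by simpa using r0, ?_, ?_, ?_⟩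
    · intro i hi'
      by_cases hc : i + 1 ≤ A.card
      · simp only [if_pos hc, if_pos (show i ≤ A.card by omega)]
        exact r1 i (by omega)
      · have : i = A.card := by omega
        subst this
        simp only [le_refl, if_true, if_neg hc]
        exact r3 (hi y) hyhi (fun y' hy' => (hbel y' hy').trans hylo)
    · intro i hi'
      by_cases hc : i + 1 ≤ A.card
      · simp only [if_pos hc, if_pos (show i ≤ A.card by omega)]
        exact r2 i (by omega)
      · have : i = A.card := by omega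
        subst this
        simp only [le_refl, if_true, if_neg hc]
        intro hdiv
        exact h4 y (Finset.mem_insert_self _ _)
          (hdiv.trans (h.dvd_mul_pow S (r3 (lo y) (hylo.trans hyhi) hbel)))
    · intro k hk hall
      simp only [if_neg (show ¬ A.card + 1 ≤ A.card by omega)]
      exact chain_dvd hq (hall y (Finset.mem_insert_self _ _)) hk

/-- the bound `C * lam ^ J` for chains of steps longer than `D * 2 ^ a` below `2 ^ J` windows,
if there are no chains of `m` long steps at the scales between `a` and `a + J` -/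
def Claim (D m : ℕ) : Prop :=
  ∀ lam : ℝ, 2 < lam → ∃ C : ℝ, 0 ≤ C ∧ ∀ (M : Type) [Monoid M] (d : M), IsGar d → Norm d D →
    ∀ (J a : ℕ) (u v : M) (n : ℕ) (q : ℕ → M),
      (∀ c, a ≤ c → c < a + J → Pd d D u v m c) → v ∣ u * d ^ (2 ^ J * ((D + 1) * 2 ^ a)) →
      u ∣ q 0 → (∀ i < n, q i ∣ q (i + 1)) → q n ∣ v →
      (∀ i < n, ¬ q (i + 1) ∣ q i * d ^ (D * 2 ^ a)) → (n : ℝ) ≤ C * lam ^ J

theorem noLong_scale (h : IsGar d) {D : ℕ} (hD : Norm d D) (a : ℕ) :
    NoLong d ((D + 1) * 2 ^ a) (D * 2 ^ a) (D + 1) := by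
  refine h.noLong_near hD ?_
  have : (D + 1) * 2 ^ a - D * 2 ^ a = 2 ^ a := by
    rw [Nat.add_mul, one_mul, Nat.add_sub_cancel_left]
  rw [this, mul_comm]

theorem claim_zero (D : ℕ) : Claim D 0 := by
  intro lam hlam
  refine ⟨D, Nat.cast_nonneg _, ?_⟩
  intro M _ d h hD J a u v n q hP hv hu hq hn hlong
  rcases Nat.eq_zero_or_pos J with hJ | hJ
  · subst hJ
    rw [pow_zero, mul_one]
    by_contra hcon
    push Not at hcon
    have hDn : D < n := by exact_mod_cast hcon
    refine noLong_scale h hD a q (fun i hi => hq i (by omega)) (fun i hi => hlong i (by omega)) ?_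
    have h1 : q (D + 1) ∣ q n := chain_dvd hq (by omega) le_rfl
    refine (h1.trans (hn.trans hv)).trans ?_
    rw [pow_zero, one_mul]
    exact h.dvd_mul_pow _ hu
  · exfalso
    have h1 : q 0 ∣ q n := chain_dvd hq (Nat.zero_le n) le_rfl
    refine hP a le_rfl (by omega) 0 (fun _ => q 0) (by simpa using hu) (by simp) (by simp) ?_ ?_
    · simpa using h1.trans hn
    · exact Dvd.intro _ rfl

theorem sum_two_pow_le (J : ℕ) : ∑ k ∈ Finset.range J, 2 ^ (J - k) ≤ 2 ^ (J + 1) := by
  induction J with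
  | zero => simp
  | succ J ih =>
    rw [Finset.sum_range_succ']
    have h1 : ∑ k ∈ Finset.range J, 2 ^ (J + 1 - (k + 1)) = ∑ k ∈ Finset.range J, 2 ^ (J - k) := by
      refine Finset.sum_congr rfl (fun k _ => ?_)
      congr 1
      omega
    rw [h1]
    have h2 : (2 : ℕ) ^ (J + 1 + 1) = 2 ^ (J + 1) + 2 ^ (J + 1) := by ring
    have h3 : (2 : ℕ) ^ (J + 1 - 0) = 2 ^ (J + 1) := by simp
    omega

/-- the number of levels reached, over all scales -/
noncomputable def pot (d : M) (D : ℕ) (u v : M) (a J : ℕ) (q : M) : ℕ := by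
  classical
  exact ∑ k ∈ Finset.range J, ((Finset.range ((D + 1) * 2 ^ (J - k))).filter
    (fun j => G d D u v (a + k) (j + 1) q)).card

theorem pot_mono (h : IsGar d) {D : ℕ} {u v : M} {a J : ℕ} {p q : M} (hpq : p ∣ q) :
    pot d D u v a J p ≤ pot d D u v a J q := by
  classical
  unfold pot
  refine Finset.sum_le_sum (fun k _ => Finset.card_le_card (fun j hj => ?_))
  rw [Finset.mem_filter] at hj ⊢
  exact ⟨hj.1, G_mono h hpq hj.2⟩

theorem pot_le {D : ℕ} {u v : M} {a J : ℕ} {q : M} :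
    pot d D u v a J q ≤ (D + 1) * 2 ^ (J + 1) := by
  classical
  unfold pot
  calc _ ≤ ∑ k ∈ Finset.range J, (D + 1) * 2 ^ (J - k) := by
        refine Finset.sum_le_sum (fun k _ => ?_)
        refine (Finset.card_filter_le _ _).trans ?_
        rw [Finset.card_range]
    _ = (D + 1) * ∑ k ∈ Finset.range J, 2 ^ (J - k) := by rw [Finset.mul_sum]
    _ ≤ _ := Nat.mul_le_mul le_rfl (sum_two_pow_le J)

theorem pot_eq (h : IsGar d) {D : ℕ} {u v : M} {a J : ℕ} {p q : M} (hpq : p ∣ q)
    (he : pot d D u v a J p = pot d D u v a J q) {k : ℕ} (hk : k < J) (j : ℕ) (hj : 1 ≤ j)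
    (hjF : j ≤ (D + 1) * 2 ^ (J - k)) :
    G d D u v (a + k) j p ↔ G d D u v (a + k) j q := by
  classical
  refine ⟨G_mono h hpq, fun hG => ?_⟩
  unfold pot at he
  have hsub : ∀ k, ((Finset.range ((D + 1) * 2 ^ (J - k))).filter
      (fun j => G d D u v (a + k) (j + 1) p)) ⊆ ((Finset.range ((D + 1) * 2 ^ (J - k))).filter
      (fun j => G d D u v (a + k) (j + 1) q)) := by
    intro k j hj
    rw [Finset.mem_filter] at hj ⊢
    exact ⟨hj.1, G_mono h hpq hj.2⟩
  have h1 := (Finset.sum_eq_sum_iff_of_le (fun k _ => Finset.card_le_card (hsub k))).1 he k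
    (Finset.mem_range.2 hk)
  have h2 := Finset.eq_of_subset_of_card_le (hsub k) h1.ge
  have h3 : j - 1 ∈ ((Finset.range ((D + 1) * 2 ^ (J - k))).filter
      (fun j => G d D u v (a + k) (j + 1) q)) := by
    rw [Finset.mem_filter, Finset.mem_range]
    exact ⟨by omega, by rwa [Nat.sub_add_cancel hj]⟩
  rw [← h2, Finset.mem_filter, Nat.sub_add_cancel hj] at h3
  exact h3.2

end Pool.Agent.H357.NearLin
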