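import Mathlib
import Pool.Agent.H357.NearLin

set_option autoImplicit false

namespace Pool.Agent.H357.NearLin

open Pool.Agent.H72R2.Gar Finset

/-- one block of the decomposition -/
theorem one_block {D m : ℕ} {lam' C' : ℝ} (hC' : ∀ (M : Type) [Monoid M] (d : M), IsGar d → Norm d D →
      ∀ (J a : ℕ) (u v : M) (n : ℕ) (q : ℕ → M),
        (∀ c, a ≤ c → c < a + J → Pd d D u v m c) → v ∣ u * d ^ (2 ^ J * ((D + 1) * 2 ^ a)) →
        u ∣ q 0 → (∀ i < n, q i ∣ q (i + 1)) → q n ∣ v →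
        (∀ i < n, ¬ q (i + 1) ∣ q i * d ^ (D * 2 ^ a)) → (n : ℝ) ≤ C' * lam' ^ J)
    (M : Type) [Monoid M] (d : M) (h : IsGar d) (hD : Norm d D) (J a : ℕ) (u v : M) (n : ℕ)
    (q : ℕ → M) (hP : ∀ c, a ≤ c → c < a + J → Pd d D u v (m + 1) c)
    (hv : v ∣ u * d ^ (2 ^ J * ((D + 1) * 2 ^ a)))
    (hu : u ∣ q 0) (hq : ∀ i < n, q i ∣ q (i + 1)) (hn : q n ∣ v)
    (hlong : ∀ i < n, ¬ q (i + 1) ∣ q i * d ^ (D * 2 ^ a)) (hC0 : 0 ≤ C') (y : ℕ) :
    ∃ lo hi e : ℕ, lo ≤ hi ∧ hi ≤ n ∧ e ≤ J ∧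
      (((range (n + 1)).filter (fun i => pot d D u v a J (q i) = y)).card : ℝ) ≤
        1 + C' * lam' ^ e ∧
      (∀ k < e, ¬ q hi ∣ q lo * d ^ (D * 2 ^ (a + k))) ∧
      (1 ≤ e → pot d D u v a J (q lo) = y ∧ pot d D u v a J (q hi) = y) := by
  classical
  set A := (range (n + 1)).filter (fun i => pot d D u v a J (q i) = y) with hA
  rcases A.eq_empty_or_nonempty with hemp | hne
  · refine ⟨0, 0, 0, le_rfl, Nat.zero_le _, Nat.zero_le _, ?_, by simp, by simp⟩
    rw [hemp]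
    simp only [card_empty, Nat.cast_zero, pow_zero, mul_one]
    linarith
  · have hlo := A.min'_mem hne
    have hhi := A.max'_mem hne
    set lo := A.min' hne with hlo'
    set hi := A.max' hne with hhi'
    have hlohi : lo ≤ hi := A.min'_le _ hhi
    rw [hA, mem_filter, mem_range] at hlo hhi
    have hhin : hi ≤ n := by omega
    have hdv : ∀ {i j : ℕ}, i ≤ j → j ≤ n → q i ∣ q j := fun h1 h2 => chain_dvd hq h1 h2
    have hulo : u ∣ q lo := hu.trans (hdv (Nat.zero_le _) (by omega))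
    have hhiv : q hi ∣ v := (hdv hhin le_rfl).trans hn
    have hex : ∃ e, q hi ∣ q lo * d ^ (2 ^ e * ((D + 1) * 2 ^ a)) :=
      ⟨J, (hhiv.trans hv).trans (h.dvd_mul_pow _ hulo)⟩
    set e := Nat.find hex with he
    have he1 : q hi ∣ q lo * d ^ (2 ^ e * ((D + 1) * 2 ^ a)) := Nat.find_spec hex
    have heJ : e ≤ J := Nat.find_min' hex ((hhiv.trans hv).trans (h.dvd_mul_pow _ hulo))
    have hnot : ∀ k < e, ¬ q hi ∣ q lo * d ^ (D * 2 ^ (a + k)) := by
      intro k hk hc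
      refine Nat.find_min hex hk (hc.trans (mul_pow_dvd ?_))
      calc D * 2 ^ (a + k) ≤ (D + 1) * 2 ^ (a + k) := Nat.mul_le_mul (by omega) le_rfl
        _ = 2 ^ k * ((D + 1) * 2 ^ a) := by rw [pow_add]; ring
    refine ⟨lo, hi, e, hlohi, hhin, heJ, ?_, hnot, fun _ => ⟨hlo.2, hhi.2⟩⟩
    have hcard : A.card ≤ hi - lo + 1 := by
      have h1 : A ⊆ Icc lo hi := fun i hi' => by
        rw [mem_Icc]
        exact ⟨A.min'_le _ hi', A.le_max' _ hi'⟩
      have h2 := card_le_card h1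
      rw [Nat.card_Icc] at h2
      omega
    have hmain : ((hi - lo : ℕ) : ℝ) ≤ C' * lam' ^ e := by
      refine hC' M d h hD e a (q lo) (q hi) (hi - lo) (fun i => q (lo + i)) ?_ he1 ?_ ?_ ?_ ?_
      · intro c hc1 hc2
        obtain ⟨k, rfl⟩ := Nat.exists_eq_add_of_le hc1
        have hke : k < e := by omega
        have hkJ : k < J := by omega
        refine block h (hP (a + k) hc1 (by omega)) hulo hhiv (F := (D + 1) * 2 ^ (J - k)) ?_ ?_
          (hnot k hke)
        · intro j hj1 hj2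
          exact pot_eq h (hdv hlohi hhin) (hlo.2.trans hhi.2.symm) hkJ j hj1 hj2
        · refine hv.trans (mul_pow_dvd ?_)
          have h1 : (D + 1) * 2 ^ (J - k) * 2 ^ (a + k) = 2 ^ J * ((D + 1) * 2 ^ a) := by
            rw [pow_add, show (2 : ℕ) ^ J = 2 ^ (J - k) * 2 ^ k by
              rw [← pow_add, Nat.sub_add_cancel hkJ.le]]
            ring
          rw [h1]
          exact Nat.le_add_right _ _
      · simp
      · intro i hi'
        exact hq (lo + i) (by omega)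
      · rw [Nat.add_sub_cancel' hlohi]
      · intro i hi'
        exact hlong (lo + i) (by omega)
    have h3 : (A.card : ℝ) ≤ ((hi - lo : ℕ) : ℝ) + 1 := by exact_mod_cast hcard
    linarith

/-- few long blocks -/
theorem few_long {D m : ℕ} {lam C : ℝ}
    (M : Type) [Monoid M] (d : M) (h : IsGar d) (J a : ℕ) (u v : M) (n : ℕ)
    (ih : ∀ J' < J, ∀ (a : ℕ) (u v : M) (n : ℕ) (q : ℕ → M),
      (∀ c, a ≤ c → c < a + J' → Pd d D u v (m + 1) c) →
      v ∣ u * d ^ (2 ^ J' * ((D + 1) * 2 ^ a)) →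
      u ∣ q 0 → (∀ i < n, q i ∣ q (i + 1)) → q n ∣ v →
      (∀ i < n, ¬ q (i + 1) ∣ q i * d ^ (D * 2 ^ a)) → (n : ℝ) ≤ C * lam ^ J')
    (q : ℕ → M) (hP : ∀ c, a ≤ c → c < a + J → Pd d D u v (m + 1) c)
    (hv : v ∣ u * d ^ (2 ^ J * ((D + 1) * 2 ^ a)))
    (hu : u ∣ q 0) (hq : ∀ i < n, q i ∣ q (i + 1)) (hn : q n ∣ v)
    (F : ℕ) (lo hi e : ℕ → ℕ) (h1 : ∀ y, lo y ≤ hi y) (h2 : ∀ y, hi y ≤ n)
    (h4 : ∀ y, ∀ k < e y, ¬ q (hi y) ∣ q (lo y) * d ^ (D * 2 ^ (a + k)))
    (h5 : ∀ y, 1 ≤ e y → pot d D u v a J (q (lo y)) = y ∧ pot d D u v a J (q (hi y)) = y)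
    (e' : ℕ) (he2 : 2 ≤ e') (heJ : e' ≤ J) :
    (((range (F + 1)).filter (fun y => e' ≤ e y)).card : ℝ) ≤ C * lam ^ (J + 1 - e') := by
  classical
  set A := (range (F + 1)).filter (fun y => e' ≤ e y) with hA
  have hAe : ∀ y ∈ A, e' ≤ e y := fun y hy => (mem_filter.1 hy).2
  have hdv : ∀ {i j : ℕ}, i ≤ j → j ≤ n → q i ∣ q j := fun h1 h2 => chain_dvd hq h1 h2
  obtain ⟨r, r0, r1, r2, r3⟩ := chain_of_intervals h (S := D * 2 ^ (a + (e' - 1))) hq A lo hi
    (fun y _ => h1 y) (fun y _ => h2 y) (fun y hy y' hy' hyy => by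
      by_contra hcon
      push Not at hcon
      have h6 := (h5 y (by have := hAe y hy; omega)).2
      have h7 := (h5 y' (by have := hAe y' hy'; omega)).1
      have h8 := pot_mono h (D := D) (u := u) (v := v) (a := a) (J := J) (hdv hcon.le (h2 y))
      rw [h6, h7] at h8
      omega)
    (fun y hy => h4 y (e' - 1) (by have := hAe y hy; omega))
  refine ih (J + 1 - e') (by omega) (a + (e' - 1)) u v A.card r ?_ ?_ ?_ r1 ?_ r2
  · intro c hc1 hc2
    exact hP c (by omega) (by omega)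
  · have h3 : (2 : ℕ) ^ (J + 1 - e') * ((D + 1) * 2 ^ (a + (e' - 1))) =
        2 ^ J * ((D + 1) * 2 ^ a) := by
      rw [pow_add, show (2 : ℕ) ^ J = 2 ^ (J + 1 - e') * 2 ^ (e' - 1) by
        rw [← pow_add]; congr 1; omega]
      ring
    rw [h3]
    exact hv
  · rw [r0]; exact hu
  · exact (r3 n le_rfl (fun y _ => h2 y)).trans hn

theorem claim_succ {D m : ℕ} (hm : Claim D m) : Claim D (m + 1) := by
  intro lam hlam
  set lam' : ℝ := (2 + lam) / 2 with hlam'
  have hl1 : 2 < lam' := by rw [hlam']; linarith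
  have hl2 : lam' < lam := by rw [hlam']; linarith
  obtain ⟨C', hC0, hC'⟩ := hm lam' hl1
  set ρ : ℝ := lam' / lam with hρ
  have hlpos : 0 < lam := by linarith
  have hρ0 : 0 < ρ := by rw [hρ]; positivity
  have hρ1 : ρ < 1 := by rw [hρ, div_lt_one hlpos]; exact hl2
  have hρl : lam' = ρ * lam := by rw [hρ]; field_simp
  obtain ⟨j, hj⟩ := exists_pow_lt_of_lt_one
    (show 0 < (1 - ρ) / (2 * (C' * lam + 1)) by
      have : 0 < 1 - ρ := by linarith
      positivity) hρ1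
  set j0 := j + 1 with hj0
  set C : ℝ := 2 * ((2 * (D : ℝ) + 3) * (1 + C' * lam' ^ j0)) with hC
  have hCpos : 0 ≤ C := by rw [hC]; positivity
  refine ⟨C, hCpos, ?_⟩
  intro M _ d h hD J
  induction J using Nat.strong_induction_on with
  | _ J ih =>
  intro a u v n q hP hv hu hq hn hlong
  classical
  set F := (D + 1) * 2 ^ (J + 1) with hF
  choose lo hi e h1 h2 h3 h4 h5 h6 using
    one_block hC' M d h hD J a u v n q hP hv hu hq hn hlong hC0
  -- the number of indices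
  have hcount : (n : ℝ) + 1 ≤ ∑ y ∈ range (F + 1), (1 + C' * lam' ^ (e y)) := by
    have h7 : (range (n + 1)).card = ∑ y ∈ range (F + 1),
        ((range (n + 1)).filter (fun i => pot d D u v a J (q i) = y)).card := by
      refine card_eq_sum_card_fiberwise (fun i _ => ?_)
      rw [mem_coe, mem_range, Nat.lt_succ_iff]
      exact pot_le
    rw [card_range] at h7
    have h8 : ((n : ℝ) + 1) = ∑ y ∈ range (F + 1),
        (((range (n + 1)).filter (fun i => pot d D u v a J (q i) = y)).card : ℝ) := by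
      exact_mod_cast h7
    rw [h8]
    exact sum_le_sum (fun y _ => h4 y)
  have hlayer : ∀ y, lam' ^ (e y) ≤ lam' ^ j0 +
      ∑ k ∈ range J, (if j0 + 1 + k ≤ e y then lam' ^ (j0 + 1 + k) else 0) := by
    intro y
    by_cases hey : e y ≤ j0
    · have h7 : lam' ^ (e y) ≤ lam' ^ j0 := pow_le_pow_right₀ (by linarith) hey
      have h8 : 0 ≤ ∑ k ∈ range J, (if j0 + 1 + k ≤ e y then lam' ^ (j0 + 1 + k) else 0) := by
        refine sum_nonneg (fun k _ => ?_)
        split_ifs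
        · positivity
        · exact le_rfl
      linarith
    · push Not at hey
      have h7 : (if j0 + 1 + (e y - (j0 + 1)) ≤ e y then lam' ^ (j0 + 1 + (e y - (j0 + 1))) else 0)
          ≤ ∑ k ∈ range J, (if j0 + 1 + k ≤ e y then lam' ^ (j0 + 1 + k) else 0) := by
        refine single_le_sum (f := fun k => if j0 + 1 + k ≤ e y then lam' ^ (j0 + 1 + k) else 0)
          (fun k _ => ?_) (mem_range.2 ?_)
        · split_ifs
          · positivity
          · exact le_rfl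
        · have := h3 y
          omega
      rw [Nat.add_sub_cancel' (by omega), if_pos le_rfl] at h7
      have h8 : 0 ≤ lam' ^ j0 := by positivity
      linarith
  have hsum : ∑ y ∈ range (F + 1), lam' ^ (e y) ≤ ((F : ℝ) + 1) * lam' ^ j0 +
      ∑ k ∈ range J, C * lam ^ (J + 1) * ρ ^ (j0 + 1) * ρ ^ k := by
    calc ∑ y ∈ range (F + 1), lam' ^ (e y)
        ≤ ∑ y ∈ range (F + 1), (lam' ^ j0 +
          ∑ k ∈ range J, (if j0 + 1 + k ≤ e y then lam' ^ (j0 + 1 + k) else 0)) :=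
          sum_le_sum (fun y _ => hlayer y)
      _ = ((F : ℝ) + 1) * lam' ^ j0 + ∑ k ∈ range J,
          ∑ y ∈ range (F + 1), (if j0 + 1 + k ≤ e y then lam' ^ (j0 + 1 + k) else 0) := by
          rw [sum_add_distrib, sum_const, card_range, sum_comm, nsmul_eq_mul]
          push_cast
          ring
      _ ≤ _ := by
          refine add_le_add le_rfl (sum_le_sum (fun k _ => ?_))
          rw [← sum_filter, sum_const, nsmul_eq_mul]
          by_cases hkJ : j0 + 1 + k ≤ J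
          · have h7 := few_long M d h J a u v n (fun J' hJ' => ih J' hJ') q hP hv hu hq hn F
              lo hi e h1 h2 h5 h6 (j0 + 1 + k) (by omega) hkJ
            have h8 : 0 ≤ lam' ^ (j0 + 1 + k) := by positivity
            refine (mul_le_mul_of_nonneg_right h7 h8).trans (le_of_eq ?_)
            rw [hρl, mul_pow, show lam ^ (J + 1) = lam ^ (J + 1 - (j0 + 1 + k)) *
              lam ^ (j0 + 1 + k) by rw [← pow_add]; congr 1; omega, pow_add ρ]
            ring
          · have h7 : (range (F + 1)).filter (fun y => j0 + 1 + k ≤ e y) = ∅ := by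
              rw [filter_eq_empty_iff]
              intro y _
              have := h3 y
              omega
            rw [h7, card_empty, Nat.cast_zero, zero_mul]
            positivity
  have hgeom : ∑ k ∈ range J, C * lam ^ (J + 1) * ρ ^ (j0 + 1) * ρ ^ k ≤
      C * lam ^ (J + 1) * ρ ^ (j0 + 1) * (1 / (1 - ρ)) := by
    rw [← mul_sum]
    refine mul_le_mul_of_nonneg_left ?_ (by positivity)
    rw [le_div_iff₀ (by linarith), geom_sum_mul_neg]
    have : 0 ≤ ρ ^ J := by positivity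
    linarith
  have hsmall : C' * (C * lam ^ (J + 1) * ρ ^ (j0 + 1) * (1 / (1 - ρ))) ≤ C / 2 * lam ^ J := by
    have h7 : ρ ^ (j0 + 1) ≤ ρ ^ j := pow_le_pow_of_le_one hρ0.le hρ1.le (by omega)
    have h8 : ρ ^ (j0 + 1) ≤ (1 - ρ) / (2 * (C' * lam + 1)) := h7.trans hj.le
    have h9 : C' * lam * (ρ ^ (j0 + 1) * (1 / (1 - ρ))) ≤ 1 / 2 := by
      have h10 : 0 < 1 - ρ := by linarith
      have h11 : ρ ^ (j0 + 1) * (1 / (1 - ρ)) ≤ 1 / (2 * (C' * lam + 1)) := by
        rw [mul_one_div, div_le_iff₀ h10]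
        refine h8.trans (le_of_eq ?_)
        ring
      have h12 : 0 ≤ C' * lam := by positivity
      calc C' * lam * (ρ ^ (j0 + 1) * (1 / (1 - ρ))) ≤ C' * lam * (1 / (2 * (C' * lam + 1))) :=
            mul_le_mul_of_nonneg_left h11 h12
        _ ≤ 1 / 2 := by
            rw [mul_one_div, div_le_div_iff₀ (by positivity) (by norm_num)]
            linarith
    have h10 : C' * (C * lam ^ (J + 1) * ρ ^ (j0 + 1) * (1 / (1 - ρ))) =
        C * lam ^ J * (C' * lam * (ρ ^ (j0 + 1) * (1 / (1 - ρ)))) := by ring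
    rw [h10]
    have h11 : 0 ≤ C * lam ^ J := by positivity
    calc C * lam ^ J * (C' * lam * (ρ ^ (j0 + 1) * (1 / (1 - ρ)))) ≤ C * lam ^ J * (1 / 2) :=
          mul_le_mul_of_nonneg_left h9 h11
      _ = _ := by ring
  have hFle : (F : ℝ) + 1 ≤ (2 * (D : ℝ) + 3) * lam ^ J := by
    have h7 : (2 : ℝ) ^ J ≤ lam ^ J := pow_le_pow_left₀ (by norm_num) hlam.le J
    have h8 : (1 : ℝ) ≤ 2 ^ J := one_le_pow₀ (by norm_num)
    rw [hF]
    push_cast
    calc ((D : ℝ) + 1) * 2 ^ (J + 1) + 1 ≤ (2 * (D : ℝ) + 3) * 2 ^ J := by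
          rw [pow_succ]
          nlinarith
      _ ≤ _ := mul_le_mul_of_nonneg_left h7 (by positivity)
  have hfin : (n : ℝ) + 1 ≤ ((F : ℝ) + 1) * (1 + C' * lam' ^ j0) + C / 2 * lam ^ J := by
    have h7 : ∑ y ∈ range (F + 1), (1 + C' * lam' ^ (e y)) =
        ((F : ℝ) + 1) + C' * ∑ y ∈ range (F + 1), lam' ^ (e y) := by
      rw [sum_add_distrib, ← mul_sum, sum_const, card_range, nsmul_eq_mul]
      push_cast
      ring
    rw [h7] at hcount
    have h8 := mul_le_mul_of_nonneg_left (hsum.trans (add_le_add le_rfl hgeom)) hC0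
    have h9 : C' * (((F : ℝ) + 1) * lam' ^ j0 +
        C * lam ^ (J + 1) * ρ ^ (j0 + 1) * (1 / (1 - ρ))) = ((F : ℝ) + 1) * (C' * lam' ^ j0) +
        C' * (C * lam ^ (J + 1) * ρ ^ (j0 + 1) * (1 / (1 - ρ))) := by ring
    rw [h9] at h8
    linarith
  have hfin2 : ((F : ℝ) + 1) * (1 + C' * lam' ^ j0) ≤ C / 2 * lam ^ J := by
    have h7 : 0 ≤ 1 + C' * lam' ^ j0 := by positivity
    calc ((F : ℝ) + 1) * (1 + C' * lam' ^ j0) ≤ (2 * (D : ℝ) + 3) * lam ^ J *
          (1 + C' * lam' ^ j0) := mul_le_mul_of_nonneg_right hFle h7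
      _ = C / 2 * lam ^ J := by rw [hC]; ring
  linarith

theorem claim_all (D m : ℕ) : Claim D m := by
  induction m with
  | zero => exact claim_zero D
  | succ m ih => exact claim_succ ih

/-- chains of steps longer than `D`, below `2 ^ J * (D + 1)` -/
theorem noLong_pow (D : ℕ) (lam : ℝ) (hlam : 2 < lam) : ∃ C : ℝ, 0 ≤ C ∧
    ∀ (M : Type) [Monoid M] (d : M), IsGar d → Norm d D → ∀ (J n : ℕ),
      C * lam ^ J < (n : ℝ) → NoLong d (2 ^ J * (D + 1)) D n := by
  obtain ⟨C, hC0, hC⟩ := claim_all D (D + 1) lam hlam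
  refine ⟨C, hC0, ?_⟩
  intro M _ d h hD J n hn p hp hlong htot
  refine absurd (hC M d h hD J 0 (p 0) (p n) n p ?_ ?_ dvd_rfl hp dvd_rfl ?_) (not_le.2 hn)
  · intro c _ _ N z _ hz1 hz2 _ hz4
    exact noLong_scale h hD c z hz1 hz2 hz4
  · simpa using htot
  · simpa using hlong

end Pool.Agent.H357.NearLin
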