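import Mathlib
import Pool.Agent.H576.RD.Stm

set_option autoImplicit false

/-!
# Project RD (helper576), CT2: the tetrahedral case is impossible
-/

namespace Pool.Agent.H357.RDCT2

open Pool.Agent.H576.RD

theorem nsq3 (a b c : ℝ) (p q r : E) : ‖a • p + b • q + c • r‖ ^ 2 =
    a ^ 2 * ‖p‖ ^ 2 + b ^ 2 * ‖q‖ ^ 2 + c ^ 2 * ‖r‖ ^ 2 + 2 * a * b * inner ℝ p q +
      2 * a * c * inner ℝ p r + 2 * b * c * inner ℝ q r := by
  rw [← real_inner_self_eq_norm_sq, ← real_inner_self_eq_norm_sq, ← real_inner_self_eq_norm_sq,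
    ← real_inner_self_eq_norm_sq]
  simp only [inner_add_left, inner_add_right, real_inner_smul_left, real_inner_smul_right]
  rw [real_inner_comm p q, real_inner_comm p r, real_inner_comm q r]
  ring

theorem nsq2 (a b : ℝ) (p q : E) : ‖a • p + b • q‖ ^ 2 =
    a ^ 2 * ‖p‖ ^ 2 + b ^ 2 * ‖q‖ ^ 2 + 2 * a * b * inner ℝ p q := by
  have h := nsq3 a b 0 p q p
  simpa using h

/-- a regular tetrahedral frame -/
structure Fr (u : Fin 4 → E) : Prop where
  unit : ∀ i, ‖u i‖ = 1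
  gram : ∀ i j, i ≠ j → inner ℝ (u i) (u j) = -(1 / 3 : ℝ)

theorem Fr.sum {u : Fin 4 → E} (h : Fr u) : u 0 + u 1 + u 2 + u 3 = 0 := by
  have h1 : ‖(1 : ℝ) • (u 0 + u 1) + (1 : ℝ) • (u 2 + u 3)‖ ^ 2 = 0 := by
    have e1 : ‖(1 : ℝ) • u 0 + (1 : ℝ) • u 1‖ ^ 2 = 4 / 3 := by
      rw [nsq2, h.unit, h.unit, h.gram 0 1 (by decide)]
      norm_num
    have e2 : ‖(1 : ℝ) • u 2 + (1 : ℝ) • u 3‖ ^ 2 = 4 / 3 := by
      rw [nsq2, h.unit, h.unit, h.gram 2 3 (by decide)]
      norm_num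
    have e3 : inner ℝ (u 0 + u 1) (u 2 + u 3) = -(4 / 3 : ℝ) := by
      rw [inner_add_left, inner_add_right, inner_add_right, h.gram 0 2 (by decide),
        h.gram 0 3 (by decide), h.gram 1 2 (by decide), h.gram 1 3 (by decide)]
      norm_num
    rw [one_smul, one_smul] at e1 e2
    rw [nsq2, e1, e2, e3]
    norm_num
  have h2 : (1 : ℝ) • (u 0 + u 1) + (1 : ℝ) • (u 2 + u 3) = 0 := by
    rw [← norm_eq_zero]
    exact pow_eq_zero_iff (two_ne_zero) |>.mp h1
  rw [one_smul, one_smul] at h2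
  rw [← h2]
  abel

theorem Fr.span {u : Fin 4 → E} (h : Fr u) (w : E) :
    ∃ a b c : ℝ, w = a • u 0 + b • u 1 + c • u 2 := by
  have hli : LinearIndependent ℝ ![u 0, u 1, u 2] := by
    rw [Fintype.linearIndependent_iff]
    intro g hg
    rw [Fin.sum_univ_three] at hg
    simp only [Matrix.cons_val_zero, Matrix.cons_val_one, Matrix.cons_val_two, Matrix.head_cons,
      Matrix.tail_cons] at hg
    have hg' : g 0 • u 0 + g 1 • u 1 + g 2 • u 2 = 0 := hg
    have u00 : inner ℝ (u 0) (u 0) = (1 : ℝ) := by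
      rw [real_inner_self_eq_norm_sq, h.unit]; norm_num
    have u11 : inner ℝ (u 1) (u 1) = (1 : ℝ) := by
      rw [real_inner_self_eq_norm_sq, h.unit]; norm_num
    have u22 : inner ℝ (u 2) (u 2) = (1 : ℝ) := by
      rw [real_inner_self_eq_norm_sq, h.unit]; norm_num
    have k0 : g 0 + g 1 * (-(1 / 3)) + g 2 * (-(1 / 3)) = 0 := by
      have := congrArg (fun z => inner ℝ z (u 0)) hg'
      simp only [inner_add_left, real_inner_smul_left, inner_zero_left] at this
      rw [u00, h.gram 1 0 (by decide), h.gram 2 0 (by decide)] at this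
      linarith
    have k1 : g 0 * (-(1 / 3)) + g 1 + g 2 * (-(1 / 3)) = 0 := by
      have := congrArg (fun z => inner ℝ z (u 1)) hg'
      simp only [inner_add_left, real_inner_smul_left, inner_zero_left] at this
      rw [u11, h.gram 0 1 (by decide), h.gram 2 1 (by decide)] at this
      linarith
    have k2 : g 0 * (-(1 / 3)) + g 1 * (-(1 / 3)) + g 2 = 0 := by
      have := congrArg (fun z => inner ℝ z (u 2)) hg'
      simp only [inner_add_left, real_inner_smul_left, inner_zero_left] at this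
      rw [u22, h.gram 0 2 (by decide), h.gram 1 2 (by decide)] at this
      linarith
    intro i
    fin_cases i
    · show g 0 = 0
      linarith
    · show g 1 = 0
      linarith
    · show g 2 = 0
      linarith
  have hcard : Fintype.card (Fin 3) = Module.finrank ℝ E := by
    rw [finrank_euclideanSpace, Fintype.card_fin]
  let B := basisOfLinearIndependentOfCardEqFinrank hli hcard
  refine ⟨B.repr w 0, B.repr w 1, B.repr w 2, ?_⟩
  have h1 := B.sum_repr w
  rw [Fin.sum_univ_three] at h1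
  have hB : ∀ i, B i = (![u 0, u 1, u 2] : Fin 3 → E) i := by
    intro i
    exact congrFun (coe_basisOfLinearIndependentOfCardEqFinrank hli hcard) i
  rw [hB, hB, hB] at h1
  exact h1.symm

theorem Fr.inner_sum {u : Fin 4 → E} (h : Fr u) (w : E) :
    inner ℝ w (u 0) + inner ℝ w (u 1) + inner ℝ w (u 2) + inner ℝ w (u 3) = (0 : ℝ) := by
  have h1 := congrArg (fun z => inner ℝ w z) h.sum
  simpa only [inner_add_right, inner_zero_right] using h1

theorem Fr.inner_sq {u : Fin 4 → E} (h : Fr u) (w : E) :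
    inner ℝ w (u 0) ^ 2 + inner ℝ w (u 1) ^ 2 + inner ℝ w (u 2) ^ 2 + inner ℝ w (u 3) ^ 2 =
      (4 / 3 : ℝ) * ‖w‖ ^ 2 := by
  have h3 : inner ℝ w (u 3) = -(inner ℝ w (u 0) + inner ℝ w (u 1) + inner ℝ w (u 2)) := by
    have := h.inner_sum w
    linarith
  obtain ⟨a, b, c, hw⟩ := h.span w
  have u00 : inner ℝ (u 0) (u 0) = (1 : ℝ) := by
    rw [real_inner_self_eq_norm_sq, h.unit]; norm_num
  have u11 : inner ℝ (u 1) (u 1) = (1 : ℝ) := by
    rw [real_inner_self_eq_norm_sq, h.unit]; norm_num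
  have u22 : inner ℝ (u 2) (u 2) = (1 : ℝ) := by
    rw [real_inner_self_eq_norm_sq, h.unit]; norm_num
  have k0 : inner ℝ w (u 0) = a + b * (-(1 / 3)) + c * (-(1 / 3)) := by
    rw [hw, inner_add_left, inner_add_left, real_inner_smul_left, real_inner_smul_left,
      real_inner_smul_left, u00, h.gram 1 0 (by decide), h.gram 2 0 (by decide)]
    ring
  have k1 : inner ℝ w (u 1) = a * (-(1 / 3)) + b + c * (-(1 / 3)) := by
    rw [hw, inner_add_left, inner_add_left, real_inner_smul_left, real_inner_smul_left,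
      real_inner_smul_left, u11, h.gram 0 1 (by decide), h.gram 2 1 (by decide)]
    ring
  have k2 : inner ℝ w (u 2) = a * (-(1 / 3)) + b * (-(1 / 3)) + c := by
    rw [hw, inner_add_left, inner_add_left, real_inner_smul_left, real_inner_smul_left,
      real_inner_smul_left, u22, h.gram 0 2 (by decide), h.gram 1 2 (by decide)]
    ring
  have kn : ‖w‖ ^ 2 = a ^ 2 + b ^ 2 + c ^ 2 + 2 * a * b * (-(1 / 3)) + 2 * a * c * (-(1 / 3)) +
      2 * b * c * (-(1 / 3)) := by
    rw [hw, nsq3, h.unit, h.unit, h.unit, h.gram 0 1 (by decide), h.gram 0 2 (by decide),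
      h.gram 1 2 (by decide)]
    ring
  rw [h3, k0, k1, k2, kn]
  ring

/-- the real number core -/
theorem core {a b c s L : ℝ} (hsum : a + b + c = -(1 / 3)) (hsq : a ^ 2 + b ^ 2 + c ^ 2 = 11 / 9)
    (ha : 1 / 3 ≤ a) (hs : 0 < s) (hsL : s < L) (h23 : 2 * L / 3 ≤ s)
    (hD : s ^ 2 - 4 / 3 * s * L + L ^ 2 * (2 - 2 * a) < L ^ 2 →
      s ^ 2 - 4 / 3 * s * L + L ^ 2 * (2 - 2 * a) = 0 ∨
        s ^ 2 - 4 / 3 * s * L + L ^ 2 * (2 - 2 * a) = s ^ 2)
    (hb : 0 ≤ 8 / 3 * s ^ 2 - 2 / 3 * s * L + 2 * L * s * b)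
    (hc : 0 ≤ 8 / 3 * s ^ 2 - 2 / 3 * s * L + 2 * L * s * c) :
    s = 2 * L / 3 ∧ s ^ 2 - 4 / 3 * s * L + L ^ 2 * (2 - 2 * a) = 0 := by
  have hL : 0 < L := by linarith
  have hlt : s ^ 2 - 4 / 3 * s * L + L ^ 2 * (2 - 2 * a) < L ^ 2 := by
    have h1 : L ^ 2 * (2 - 2 * a) ≤ L ^ 2 * (4 / 3) :=
      mul_le_mul_of_nonneg_left (by linarith) (by positivity)
    have h2 : 0 < (L - s) * (s - L / 3) := mul_pos (by linarith) (by linarith)
    nlinarith
  rcases hD hlt with h | h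
  · refine ⟨?_, h⟩
    have h79 : a ≤ 7 / 9 := by
      have h1 : (9 * a - 7) * (a + 1) ≤ 0 := by nlinarith [sq_nonneg (b - c)]
      by_contra hcon
      push Not at hcon
      have : 0 < (9 * a - 7) * (a + 1) := mul_pos (by linarith) (by linarith)
      linarith
    have h2 : (s - 2 * L / 3) ^ 2 + L ^ 2 * (14 / 9 - 2 * a) = 0 := by
      rw [← h]; ring
    have h3 : 0 ≤ L ^ 2 * (14 / 9 - 2 * a) := mul_nonneg (by positivity) (by linarith)
    have h4 : (s - 2 * L / 3) ^ 2 = 0 := le_antisymm (by linarith) (sq_nonneg _)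
    have h5 := pow_eq_zero_iff (two_ne_zero) |>.mp h4
    linarith
  · exfalso
    have h1 : L * (2 * L - 2 * a * L - 4 / 3 * s) = 0 := by nlinarith
    have h2 : 2 * L - 2 * a * L - 4 / 3 * s = 0 := by
      rcases mul_eq_zero.mp h1 with h0 | h0
      · exact absurd h0 hL.ne'
      · exact h0
    have hb' : 0 ≤ b - (2 * a - 5 / 3) := by
      have e1 : 8 / 3 * s ^ 2 - 2 / 3 * s * L + 2 * L * s * b =
          (2 * s * L) * (b - (2 * a - 5 / 3)) := by
        have : s * (2 * L - 2 * a * L - 4 / 3 * s) = 0 := by rw [h2, mul_zero]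
        nlinarith
      rw [e1] at hb
      exact nonneg_of_mul_nonneg_right hb (by positivity)
    have hc' : 0 ≤ c - (2 * a - 5 / 3) := by
      have e1 : 8 / 3 * s ^ 2 - 2 / 3 * s * L + 2 * L * s * c =
          (2 * s * L) * (c - (2 * a - 5 / 3)) := by
        have : s * (2 * L - 2 * a * L - 4 / 3 * s) = 0 := by rw [h2, mul_zero]
        nlinarith
      rw [e1] at hc
      exact nonneg_of_mul_nonneg_right hc (by positivity)
    have ha1 : 1 / 3 < a := by
      by_contra hcon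
      push Not at hcon
      nlinarith
    have ha2 : a ≤ 5 / 9 := by
      by_contra hcon
      push Not at hcon
      nlinarith
    have hbc : b + c = -(1 / 3) - a := by linarith
    have hbc2 : b * c = a ^ 2 + a / 3 - 5 / 9 := by
      have : (b + c) ^ 2 = (-(1 / 3) - a) ^ 2 := by rw [hbc]
      nlinarith
    have h5 := mul_nonneg hb' hc'
    have h6 : (b - (2 * a - 5 / 3)) * (c - (2 * a - 5 / 3)) = (21 * a ^ 2 - 22 * a + 5) / 3 := by
      have : (b - (2 * a - 5 / 3)) * (c - (2 * a - 5 / 3)) =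
        b * c - (2 * a - 5 / 3) * (b + c) + (2 * a - 5 / 3) ^ 2 := by ring
      rw [this, hbc2, hbc]
      ring
    rw [h6] at h5
    have h7 : 0 < (a - 1 / 3) * (5 / 7 - a) := mul_pos (by linarith) (by linarith)
    nlinarith

section

variable {X : Set E} {s L : ℝ}

theorem d0 (hX : ∀ x ∈ X, ∃ u : Fin 4 → E, TetAt X s L x u) (hs : 0 < s) (hsL : s < L) {p q : E}
    (hp : p ∈ X) (hq : q ∈ X) (h : ‖q - p‖ ^ 2 < L ^ 2) : q = p ∨ ‖q - p‖ ^ 2 = s ^ 2 := by
  by_cases hqp : q = p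
  · exact Or.inl hqp
  right
  obtain ⟨u, hu⟩ := hX p hp
  have h1 : ‖q - p‖ < L := lt_of_pow_lt_pow_left₀ 2 (by linarith) h
  obtain ⟨i, hi⟩ := hu.only q hq hqp h1
  have h2 : q - p = -(s • u i) := by rw [hi]; abel
  rw [h2, norm_neg, norm_smul, hu.unit, mul_one, Real.norm_eq_abs, sq_abs]

theorem d1 (hX : ∀ x ∈ X, ∃ u : Fin 4 → E, TetAt X s L x u) (hs : 0 < s) (hsL : s < L) {p p' q : E}
    (hp : p ∈ X) (hp' : p' ∈ X) (hq : q ∈ X) (h : ‖p - q‖ ^ 2 = s ^ 2) (h' : ‖p' - q‖ ^ 2 = s ^ 2)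
    (hne : p ≠ p') : ‖p - p'‖ ^ 2 = 8 / 3 * s ^ 2 := by
  obtain ⟨u, hu⟩ := hX q hq
  have hlt : ∀ z : E, ‖z - q‖ ^ 2 = s ^ 2 → ‖z - q‖ = s := by
    intro z hz
    exact (pow_left_inj₀ (norm_nonneg _) hs.le two_ne_zero).mp hz
  have hne0 : ∀ z : E, ‖z - q‖ ^ 2 = s ^ 2 → z ≠ q := by
    intro z hz hzq
    rw [hzq, sub_self, norm_zero] at hz
    nlinarith
  obtain ⟨i, hi⟩ := hu.only p hp (hne0 p h) (by rw [hlt p h]; exact hsL)
  obtain ⟨j, hj⟩ := hu.only p' hp' (hne0 p' h') (by rw [hlt p' h']; exact hsL)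
  have hij : i ≠ j := by
    intro e
    apply hne
    rw [hi, hj, e]
  have e1 : p - p' = (-s) • u i + s • u j := by
    rw [hi, hj, neg_smul]
    abel
  rw [e1, nsq2, hu.unit, hu.unit, hu.gram i j hij]
  ring

theorem TetAt.fr {x : E} {u : Fin 4 → E} (h : TetAt X s L x u) : Fr u := ⟨h.unit, h.gram⟩

theorem perm {x : E} {u : Fin 4 → E} (h : TetAt X s L x u) (σ : Equiv.Perm (Fin 4)) :
    TetAt X s L x (fun i => u (σ i)) where
  unit := fun i => h.unit _
  gram := fun i j hij => h.gram _ _ (fun e => hij (σ.injective e))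
  nb := fun i => h.nb _
  only := by
    intro z hz hne hlt
    obtain ⟨i, hi⟩ := h.only z hz hne hlt
    refine ⟨σ.symm i, ?_⟩
    rw [Equiv.apply_symm_apply]
    exact hi
  lp := fun i => h.lp _

theorem bond (hX : ∀ x ∈ X, ∃ u : Fin 4 → E, TetAt X s L x u) (hs : 0 < s) (hsL : s < L)
    (h23 : 2 * L / 3 ≤ s) {x : E} (hx : x ∈ X) {u : Fin 4 → E} (hu : TetAt X s L x u)
    {j k : Fin 4} (hjk : j ≠ k) :
    s = 2 * L / 3 ∧ x - s • u j - s • (u k + (2 / 3 : ℝ) • u j) ∈ X := by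
  have hL : 0 < L := by linarith
  obtain ⟨y, hy0⟩ : ∃ y, y = x - s • u j := ⟨_, rfl⟩
  have hy : y ∈ X := by rw [hy0]; exact hu.nb j
  have hxy : x - y = s • u j := by rw [hy0]; abel
  obtain ⟨v0, hv0⟩ := hX y hy
  have hnxy : ‖x - y‖ = s := by
    rw [hxy, norm_smul, hu.unit, mul_one, Real.norm_eq_abs, abs_of_pos hs]
  have hne : x ≠ y := by
    intro e
    rw [e, sub_self, norm_zero] at hnxy
    linarith
  obtain ⟨l, hl⟩ := hv0.only x hx hne (by rw [hnxy]; exact hsL)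
  obtain ⟨v, hvdef⟩ : ∃ v : Fin 4 → E, v = fun i => v0 (Equiv.swap l 3 i) := ⟨_, rfl⟩
  have hv : TetAt X s L y v := by rw [hvdef]; exact perm hv0 _
  have hv3 : v 3 = -(u j) := by
    have h1 : v 3 = v0 l := by
      rw [hvdef]
      show v0 (Equiv.swap l 3 3) = v0 l
      rw [Equiv.swap_apply_right]
    have h2 : s • (u j + v0 l) = 0 := by
      have h3 : x - y = -(s • v0 l) := by
        nth_rewrite 1 [hl]
        abel
      rw [hxy] at h3
      rw [smul_add, h3]
      abel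
    rcases smul_eq_zero.mp h2 with h3 | h3
    · exact absurd h3 hs.ne'
    · rw [h1]
      exact eq_neg_of_add_eq_zero_right h3
  have hfr := TetAt.fr hv
  -- inner products
  have hjk' : inner ℝ (u j) (u k) = -(1 / 3 : ℝ) := hu.gram j k hjk
  have t3 : inner ℝ (u k) (v 3) = (1 / 3 : ℝ) := by
    rw [hv3, inner_neg_right, hu.gram k j (Ne.symm hjk)]
    norm_num
  have hjv : ∀ m : Fin 4, m ≠ 3 → inner ℝ (u j) (v m) = (1 / 3 : ℝ) := by
    intro m hm
    have h1 : u j = -(v 3) := by rw [hv3, neg_neg]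
    rw [h1, inner_neg_left, hv.gram 3 m (Ne.symm hm)]
    norm_num
  have hS := hfr.inner_sum (u k)
  have hQ := hfr.inner_sq (u k)
  rw [t3] at hS hQ
  rw [hu.unit] at hQ
  -- the points
  have hbX : x + L • u k ∈ X := hu.lp k
  have hD : ∀ m : Fin 4, m ≠ 3 → ‖(x + L • u k) - (y + L • v m)‖ ^ 2 =
      s ^ 2 - 4 / 3 * s * L + L ^ 2 * (2 - 2 * inner ℝ (u k) (v m)) := by
    intro m hm
    have e1 : (x + L • u k) - (y + L • v m) = s • u j + L • u k + (-L) • v m := by
      rw [← hxy, neg_smul]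
      abel
    rw [e1, nsq3, hu.unit, hu.unit, hv.unit, hjk', hjv m hm]
    ring
  have hD' : ∀ m : Fin 4, m ≠ 3 →
      s ^ 2 - 4 / 3 * s * L + L ^ 2 * (2 - 2 * inner ℝ (u k) (v m)) < L ^ 2 →
      s ^ 2 - 4 / 3 * s * L + L ^ 2 * (2 - 2 * inner ℝ (u k) (v m)) = 0 ∨
        s ^ 2 - 4 / 3 * s * L + L ^ 2 * (2 - 2 * inner ℝ (u k) (v m)) = s ^ 2 := by
    intro m hm hlt
    rw [← hD m hm] at hlt ⊢
    rcases d0 hX hs hsL (hv.lp m) hbX hlt with h | h
    · left
      rw [h, sub_self, norm_zero]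
      norm_num
    · right
      exact h
  have hby : ‖(x + L • u k) - y‖ ^ 2 = s ^ 2 + L ^ 2 - 2 / 3 * s * L := by
    have e1 : (x + L • u k) - y = s • u j + L • u k := by
      rw [← hxy]
      abel
    rw [e1, nsq2, hu.unit, hu.unit, hjk']
    ring
  have hby' : L ^ 2 ≤ ‖(x + L • u k) - y‖ ^ 2 := by
    rw [hby]
    nlinarith
  have hY : ∀ m : Fin 4, m ≠ 3 →
      0 ≤ 8 / 3 * s ^ 2 - 2 / 3 * s * L + 2 * L * s * inner ℝ (u k) (v m) := by
    intro m hm
    have e0 : ‖(x + L • u k) - (y - s • v m)‖ ^ 2 =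
        L ^ 2 + (8 / 3 * s ^ 2 - 2 / 3 * s * L + 2 * L * s * inner ℝ (u k) (v m)) := by
      have e1 : (x + L • u k) - (y - s • v m) = s • u j + L • u k + s • v m := by
        rw [← hxy]
        abel
      rw [e1, nsq3, hu.unit, hu.unit, hv.unit, hjk', hjv m hm]
      ring
    by_contra hcon
    push Not at hcon
    have hlt : ‖(x + L • u k) - (y - s • v m)‖ ^ 2 < L ^ 2 := by rw [e0]; linarith
    have hysq : ‖y - (y - s • v m)‖ ^ 2 = s ^ 2 := by
      have e2 : y - (y - s • v m) = s • v m := by abel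
      rw [e2, norm_smul, hv.unit, mul_one, Real.norm_eq_abs, sq_abs]
    rcases d0 hX hs hsL (hv.nb m) hbX hlt with h | h
    · rw [h] at hby'
      have e3 : ‖(y - s • v m) - y‖ ^ 2 = s ^ 2 := by rw [norm_sub_rev]; exact hysq
      rw [e3] at hby'
      nlinarith
    · have hneq : x + L • u k ≠ y := by
        intro e
        rw [e, sub_self, norm_zero] at hby'
        nlinarith
      have h8 := d1 hX hs hsL hbX hy (hv.nb m) h hysq hneq
      rw [hby] at h8
      have h9 : (5 * s - 3 * L) * (s + L) = 0 := by nlinarith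
      rcases mul_eq_zero.mp h9 with h0 | h0 <;> linarith
  -- conclusion from one index
  have fin : ∀ m : Fin 4, m ≠ 3 → s = 2 * L / 3 ∧
      s ^ 2 - 4 / 3 * s * L + L ^ 2 * (2 - 2 * inner ℝ (u k) (v m)) = 0 →
      s = 2 * L / 3 ∧ x - s • u j - s • (u k + (2 / 3 : ℝ) • u j) ∈ X := by
    rintro m hm ⟨h1, h2⟩
    refine ⟨h1, ?_⟩
    rw [← hD m hm] at h2
    have h3 : (x + L • u k) - (y + L • v m) = 0 := by
      rw [← norm_eq_zero]
      exact pow_eq_zero_iff (two_ne_zero) |>.mp h2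
    have h4 : L • v m = L • (u k + (2 / 3 : ℝ) • u j) := by
      have h5 : (x + L • u k) - (y + L • v m) = s • u j + L • u k - L • v m := by
        rw [← hxy]
        abel
      rw [h5] at h3
      have h6 : L • v m = s • u j + L • u k := (sub_eq_zero.mp h3).symm
      rw [h6, smul_add, smul_smul, h1]
      have : L * (2 / 3) = 2 * L / 3 := by ring
      rw [this]
      abel
    have h7 : v m = u k + (2 / 3 : ℝ) • u j := smul_right_injective E hL.ne' h4
    have h8 := hv.nb m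
    rw [h7, hy0] at h8
    exact h8
  have g0 : -1 ≤ inner ℝ (u k) (v 0) := by
    have := abs_real_inner_le_norm (u k) (v 0)
    rw [hu.unit, hv.unit, mul_one] at this
    exact (abs_le.mp this).1
  have g1 : -1 ≤ inner ℝ (u k) (v 1) := by
    have := abs_real_inner_le_norm (u k) (v 1)
    rw [hu.unit, hv.unit, mul_one] at this
    exact (abs_le.mp this).1
  have g2 : -1 ≤ inner ℝ (u k) (v 2) := by
    have := abs_real_inner_le_norm (u k) (v 2)
    rw [hu.unit, hv.unit, mul_one] at this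
    exact (abs_le.mp this).1
  have hD0 := hD' 0 (by decide)
  have hD1 := hD' 1 (by decide)
  have hD2 := hD' 2 (by decide)
  have hY0 := hY 0 (by decide)
  have hY1 := hY 1 (by decide)
  have hY2 := hY 2 (by decide)
  have f0 := fin 0 (by decide)
  have f1 := fin 1 (by decide)
  have f2 := fin 2 (by decide)
  generalize inner ℝ (u k) (v 0) = a at *
  generalize inner ℝ (u k) (v 1) = b at *
  generalize inner ℝ (u k) (v 2) = c at *
  by_cases ha : 1 / 3 ≤ a
  · exact f0 (core (a := a) (b := b) (c := c) (by linarith) (by linarith) ha hs hsL h23 hD0 hY1 hY2)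
  by_cases hb : 1 / 3 ≤ b
  · exact f1 (core (a := b) (b := a) (c := c) (by linarith) (by linarith) hb hs hsL h23 hD1 hY0 hY2)
  by_cases hc : 1 / 3 ≤ c
  · exact f2 (core (a := c) (b := a) (c := b) (by linarith) (by linarith) hc hs hsL h23 hD2 hY0 hY1)
  exfalso
  push Not at ha hb hc
  have p0 : 0 ≤ (a + 1) * (1 / 3 - a) := mul_nonneg (by linarith) (by linarith)
  have p1 : 0 ≤ (b + 1) * (1 / 3 - b) := mul_nonneg (by linarith) (by linarith)
  have p2 : 0 ≤ (c + 1) * (1 / 3 - c) := mul_nonneg (by linarith) (by linarith)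
  have p3 : (a + 1) * (1 / 3 - a) + (b + 1) * (1 / 3 - b) + (c + 1) * (1 / 3 - c) = 0 := by
    nlinarith
  have q0 : (a + 1) * (1 / 3 - a) = 0 := by linarith
  have q1 : (b + 1) * (1 / 3 - b) = 0 := by linarith
  have q2 : (c + 1) * (1 / 3 - c) = 0 := by linarith
  rcases mul_eq_zero.mp q0 with r0 | r0
  · rcases mul_eq_zero.mp q1 with r1 | r1
    · rcases mul_eq_zero.mp q2 with r2 | r2
      · linarith
      · linarith
    · linarith
  · linarith

end

/-- CT2 -/
theorem rd_ct2 : S_CT2 := by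
  intro X s L hne hs hsL h23 hX
  obtain ⟨x, hx⟩ := hne
  obtain ⟨u, hu⟩ := hX x hx
  obtain ⟨e1, hP⟩ := bond hX hs hsL h23 hx hu (j := 0) (k := 1) (by decide)
  obtain ⟨-, hQ⟩ := bond hX hs hsL h23 hx hu (j := 1) (k := 0) (by decide)
  have h1 : (x - s • u 0 - s • (u 1 + (2 / 3 : ℝ) • u 0)) -
      (x - s • u 1 - s • (u 0 + (2 / 3 : ℝ) • u 1)) = (-(2 / 3) * s) • u 0 + (2 / 3 * s) • u 1 := by
    module
  have h2 : ‖(x - s • u 0 - s • (u 1 + (2 / 3 : ℝ) • u 0)) -
      (x - s • u 1 - s • (u 0 + (2 / 3 : ℝ) • u 1))‖ ^ 2 = 32 / 27 * s ^ 2 := by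
    rw [h1, nsq2, hu.unit, hu.unit, hu.gram 0 1 (by decide)]
    ring
  have hL : L = 3 / 2 * s := by linarith
  have hlt : ‖(x - s • u 0 - s • (u 1 + (2 / 3 : ℝ) • u 0)) -
      (x - s • u 1 - s • (u 0 + (2 / 3 : ℝ) • u 1))‖ ^ 2 < L ^ 2 := by
    rw [h2, hL]
    nlinarith
  have hs2 : 0 < s ^ 2 := by positivity
  rcases d0 hX hs hsL hQ hP hlt with h | h
  · rw [h, sub_self, norm_zero] at h2
    nlinarith
  · rw [h] at h2
    nlinarith

end Pool.Agent.H357.RDCT2

namespace Pool.Agent.H357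

theorem rd_ct2 : Pool.Agent.H576.RD.S_CT2 := RDCT2.rd_ct2

end Pool.Agent.H357

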