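import Pool.Agent.H724.ST.Stm

set_option autoImplicit false

/-!
# Project ST: reading one run of a coded tape
-/

namespace Pool.Agent.H357.STCut

open Pool.Agent.H724.ST

theorem count_blks (C : Chk) (x : ℕ → ℕ) (i : ℕ) : (blks C x i).count true = i := by
  induction i with
  | zero => simp [blks]
  | succ i ih =>
    have h : (rn ((x i + 1) * (C.N + 1) - 1)).count true = 0 := by
      rw [rn, List.count_eq_zero]
      intro hm
      simpa using List.eq_of_mem_replicate hm
    rw [blks, List.count_append, ih, blk, List.count_append, h]
    simp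

theorem blks_split (C : Chk) (x : ℕ → ℕ) (i0 k : ℕ) : ∃ r, blks C x (i0 + k) = blks C x i0 ++ r := by
  induction k with
  | zero => exact ⟨[], by simp⟩
  | succ k ih =>
    obtain ⟨r, hr⟩ := ih
    refine ⟨r ++ blk C (x (i0 + k)), ?_⟩
    rw [← Nat.add_assoc, blks, hr, List.append_assoc]

theorem first_run (m n : ℕ) (z w : List Bool) (h : rn m ++ true :: z = rn n ++ true :: w) :
    m = n ∧ z = w := by
  induction m generalizing n with
  | zero =>
    cases n with
    | zero => simpa [rn] using h
    | succ n => simp [rn, List.replicate_succ] at h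
  | succ m ih =>
    cases n with
    | zero => simp [rn, List.replicate_succ] at h
    | succ n =>
      have h' : rn m ++ true :: z = rn n ++ true :: w := by
        simpa [rn, List.replicate_succ] using h
      obtain ⟨h1, h2⟩ := ih n h'
      exact ⟨by omega, h2⟩

theorem cut : S_CUT := by
  intro C _ x i i0 q al e z hq hqN h
  have hc := congrArg (List.count true) h
  have hrn : ∀ n, (rn n).count true = 0 := by
    intro n
    rw [rn, List.count_eq_zero]
    intro hm
    simpa using List.eq_of_mem_replicate hm
  rw [List.count_append, List.count_append, List.count_append, List.count_append, count_blks,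
    count_blks, hrn, hrn, hrn, List.count_cons_self] at hc
  have hi : i0 + 1 ≤ i := by omega
  obtain ⟨r, hr⟩ := blks_split C x (i0 + 1) (i - (i0 + 1))
  rw [Nat.add_sub_cancel' hi] at hr
  have h2 := h
  rw [hr, blks, blk, List.append_assoc, List.append_assoc] at h2
  have h3 := List.append_cancel_left h2
  have h4 : rn (q - 1 + al) ++ true :: z =
      rn ((x i0 + 1) * (C.N + 1) - 1) ++ true :: (false :: (r ++ rn e)) := by
    have : rn (q - 1 + al) = rn (q - 1) ++ rn al := by
      rw [rn, rn, rn, List.replicate_add]
    rw [this, List.append_assoc, h3]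
    simp
  obtain ⟨h5, h6⟩ := first_run _ _ _ _ h4
  have h7 : C.N + 1 ≤ (x i0 + 1) * (C.N + 1) := Nat.le_mul_of_pos_left _ (Nat.succ_pos _)
  refine ⟨by omega, r ++ rn e, h6, ?_⟩
  rw [hr, List.append_assoc]

end Pool.Agent.H357.STCut

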