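import Pool.Agent.H770.GS.TC
import Pool.Agent.H187.GSD

/-!
# Project TC (helper770): the statement `S_D1` (after helper187's proof of `S_D`)
-/

set_option autoImplicit false

open MeasureTheory Set intervalIntegral

namespace Pool.Agent.H357.TCD1

open Pool.Agent.H770.GS Pool.Agent.H187.GSD

/-! ### The statement -/

theorem s_D1 : S_D1 := by
  intro r c v hr hr3 hc hv hvr hcv
  have hrv : 0 < r - v := by linarith
  have hle : r - v ≤ r + v := by linarith
  -- continuity of the pieces
  have hn := n_cont r c
  have hWs := Wsub_cont v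
  have hWa := Wadd_cont v
  -- the coefficient `κ`
  obtain ⟨κm, hκm⟩ : ∃ κm, κm = nL r (c * (r - v)) / (r - v) := ⟨_, rfl⟩
  obtain ⟨κp, hκp⟩ : ∃ κp, κp = nL r (c * (r + v)) / (r + v) := ⟨_, rfl⟩
  -- right part
  have hright : (∫ a in (r - v)..(r + v), W (a - v) * (1 + v ^ 2 - v * a) * nL r (c * a)) =
      NR r v (r + v) * κp - NR r v (r - v) * κm +
        ∫ a in (r - v)..(r + v), NR r v a * (Mc r c a / a ^ 2) := by
    have hpos : ∀ a ∈ uIcc (r - v) (r + v), 0 < a := by
      intro a ha
      rw [uIcc_of_le hle] at ha
      exact lt_of_lt_of_le hrv ha.1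
    have hder : ∀ a ∈ uIcc (r - v) (r + v),
        HasDerivAt (fun a => NR r v a * (nL r (c * a) / a))
          (W (a - v) * (1 + v ^ 2 - v * a) * nL r (c * a) - NR r v a * (Mc r c a / a ^ 2)) a := by
      intro a ha
      have ha0 : a ≠ 0 := (hpos a ha).ne'
      have h := (NR_deriv r v a).mul (kap_deriv r c ha0)
      refine h.congr_deriv ?_
      field_simp
      ring
    have hc1' : ContinuousOn (fun a => W (a - v) * (1 + v ^ 2 - v * a) * nL r (c * a))
        (uIcc (r - v) (r + v)) := by
      apply Continuous.continuousOn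
      exact (hWs.mul (continuous_const.sub (continuous_const.mul continuous_id))).mul hn
    have hc2' : ContinuousOn (fun a => NR r v a * (Mc r c a / a ^ 2)) (uIcc (r - v) (r + v)) := by
      apply ContinuousOn.mul (NR_cont r v).continuousOn
      apply ContinuousOn.div (Pool.Agent.H187.GSD.Mc_cont r c).continuousOn (continuous_pow 2).continuousOn
      intro a ha
      exact pow_ne_zero 2 (hpos a ha).ne'
    have hi1 : IntervalIntegrable (fun a => W (a - v) * (1 + v ^ 2 - v * a) * nL r (c * a))
      volume (r - v) (r + v) := hc1'.intervalIntegrable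
    have hi2 : IntervalIntegrable (fun a => NR r v a * (Mc r c a / a ^ 2))
      volume (r - v) (r + v) := hc2'.intervalIntegrable
    have h := intervalIntegral.integral_eq_sub_of_hasDerivAt hder (hi1.sub hi2)
    rw [intervalIntegral.integral_sub hi1 hi2] at h
    rw [hκm, hκp]
    linarith
  -- left part
  have hleft : κm * ((v * (r - v) - 1) * W (r - v - v) + (v * (r - v) + 1) * W (r - v + v)) ≤
      ∫ a in (0:ℝ)..(r - v), (W (a - v) * (1 + v ^ 2 - v * a) - W (a + v) * (1 + v ^ 2 + v * a)) *
        nL r (c * a) := by
    have hcb : Continuous (fun a => W (a - v) * (1 + v ^ 2 - v * a) -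
        W (a + v) * (1 + v ^ 2 + v * a)) :=
      (hWs.mul (continuous_const.sub (continuous_const.mul continuous_id))).sub
        (hWa.mul (continuous_const.add (continuous_const.mul continuous_id)))
    have hI : (∫ a in (0:ℝ)..(r - v), a * (W (a - v) * (1 + v ^ 2 - v * a) -
        W (a + v) * (1 + v ^ 2 + v * a))) =
        (v * (r - v) - 1) * W (r - v - v) + (v * (r - v) + 1) * W (r - v + v) := by
      have h := intervalIntegral.integral_eq_sub_of_hasDerivAt
        (a := (0:ℝ)) (b := r - v) (fun a _ => NL_deriv v a)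
        ((continuous_id.mul hcb).intervalIntegrable _ _)
      refine h.trans ?_
      have h0 : W (0 - v) = W (0 + v) := by
        rw [zero_sub, zero_add, W_even]
      rw [h0]
      ring
    rw [← hI, ← intervalIntegral.integral_const_mul]
    refine intervalIntegral.integral_mono_on hrv.le
      ((continuous_const.mul (continuous_id.mul hcb)).intervalIntegrable _ _)
      ((hcb.mul hn).intervalIntegrable _ _) ?_
    intro a ha
    have hβ : 0 ≤ W (a - v) * (1 + v ^ 2 - v * a) - W (a + v) * (1 + v ^ 2 + v * a) := by
      apply beta_nonneg ha.1 _ hv.le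
      have h1 : a ≤ r := by linarith [ha.2]
      nlinarith [ha.1]
    -- `κ` is nonincreasing
    have hκ : κm * a ≤ nL r (c * a) := by
      rcases eq_or_lt_of_le ha.1 with h0 | h0
      · rw [← h0, mul_zero]
        apply nL_nonneg
        · simp
        · simp only [mul_zero]
          linarith
      · have hanti : AntitoneOn (fun a => nL r (c * a) / a) (Ioc 0 (r - v)) := by
          refine antitoneOn_of_deriv_nonpos (convex_Ioc 0 (r - v)) ?_ ?_ ?_
          · exact fun x hx => (kap_deriv r c hx.1.ne').continuousAt.continuousWithinAt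
          · intro x hx
            rw [interior_Ioc] at hx
            exact (kap_deriv r c hx.1.ne').differentiableAt.differentiableWithinAt
          · intro x hx
            rw [interior_Ioc] at hx
            rw [(kap_deriv r c hx.1.ne').deriv]
            have hcx : 0 < c * x := mul_pos hc hx.1
            have hcx2 : c * x < 2 * r := by
              have e1 := mul_lt_mul_of_pos_left hx.2 hc
              have e2 := mul_pos hc hv
              nlinarith
            have h1 := nL_anti hcx hcx2
            have h2 : 0 ≤ Mc r c x := by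
              unfold Mc nLd
              linarith
            have h3 : 0 ≤ Mc r c x / x ^ 2 := div_nonneg h2 (sq_nonneg x)
            linarith
        have h1 := hanti (⟨h0, ha.2⟩ : a ∈ Ioc 0 (r - v)) (⟨hrv, le_rfl⟩ : r - v ∈ Ioc 0 (r - v))
          ha.2
        have h2 : κm ≤ nL r (c * a) / a := by rw [hκm]; exact h1
        have h3 := mul_le_mul_of_nonneg_right h2 h0.le
        rwa [div_mul_cancel₀ _ h0.ne'] at h3
    have h4 := mul_le_mul_of_nonneg_right hκ hβ
    calc κm * (a * (W (a - v) * (1 + v ^ 2 - v * a) - W (a + v) * (1 + v ^ 2 + v * a)))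
        = κm * a * (W (a - v) * (1 + v ^ 2 - v * a) - W (a + v) * (1 + v ^ 2 + v * a)) := by ring
      _ ≤ nL r (c * a) * (W (a - v) * (1 + v ^ 2 - v * a) - W (a + v) * (1 + v ^ 2 + v * a)) := h4
      _ = (W (a - v) * (1 + v ^ 2 - v * a) - W (a + v) * (1 + v ^ 2 + v * a)) *
          nL r (c * a) := by ring
  -- `Qf - v Qd`
  have hQ : Qf r c v - v * Qd r c v =
      (∫ a in (0:ℝ)..(r - v), (W (a - v) * (1 + v ^ 2 - v * a) - W (a + v) * (1 + v ^ 2 + v * a)) *
        nL r (c * a)) +
      (∫ a in (r - v)..(r + v), W (a - v) * (1 + v ^ 2 - v * a) * nL r (c * a)) -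
      v * (W r * (nL r (c * (r + v)) + nL r (c * (r - v)))) := by
    have i1 : ∀ x y : ℝ, IntervalIntegrable (fun a => W (a - v) * nL r (c * a)) volume x y :=
      fun x y => (hWs.mul hn).intervalIntegrable _ _
    have i2 : ∀ x y : ℝ, IntervalIntegrable (fun a => W (a + v) * nL r (c * a)) volume x y :=
      fun x y => (hWa.mul hn).intervalIntegrable _ _
    have i3 : ∀ x y : ℝ, IntervalIntegrable (fun a => (a - v) * W (a - v) * nL r (c * a))
        volume x y :=
      fun x y => (((continuous_id.sub continuous_const).mul hWs).mul hn).intervalIntegrable _ _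
    have i4 : ∀ x y : ℝ, IntervalIntegrable (fun a => (a + v) * W (a + v) * nL r (c * a))
        volume x y :=
      fun x y => (((continuous_id.add continuous_const).mul hWa).mul hn).intervalIntegrable _ _
    have i5 : ∀ x y : ℝ, IntervalIntegrable
        (fun a => W (a - v) * (1 + v ^ 2 - v * a) * nL r (c * a)) volume x y :=
      fun x y => ((hWs.mul (continuous_const.sub (continuous_const.mul continuous_id))).mul
        hn).intervalIntegrable _ _
    have i6 : ∀ x y : ℝ, IntervalIntegrable
        (fun a => W (a + v) * (1 + v ^ 2 + v * a) * nL r (c * a)) volume x y :=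
      fun x y => ((hWa.mul (continuous_const.add (continuous_const.mul continuous_id))).mul
        hn).intervalIntegrable _ _
    have e1 : (∫ a in (0:ℝ)..(r + v), W (a - v) * nL r (c * a)) -
        v * (∫ a in (0:ℝ)..(r + v), (a - v) * W (a - v) * nL r (c * a)) =
        ∫ a in (0:ℝ)..(r + v), W (a - v) * (1 + v ^ 2 - v * a) * nL r (c * a) := by
      rw [← intervalIntegral.integral_const_mul, ← intervalIntegral.integral_sub (i1 _ _)
        ((i3 _ _).const_mul v)]
      refine intervalIntegral.integral_congr (fun a _ => ?_)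
      ring
    have e2 : (∫ a in (0:ℝ)..(r - v), W (a + v) * nL r (c * a)) +
        v * (∫ a in (0:ℝ)..(r - v), (a + v) * W (a + v) * nL r (c * a)) =
        ∫ a in (0:ℝ)..(r - v), W (a + v) * (1 + v ^ 2 + v * a) * nL r (c * a) := by
      rw [← intervalIntegral.integral_const_mul, ← intervalIntegral.integral_add (i2 _ _)
        ((i4 _ _).const_mul v)]
      refine intervalIntegral.integral_congr (fun a _ => ?_)
      ring
    have e3 : (∫ a in (0:ℝ)..(r + v), W (a - v) * (1 + v ^ 2 - v * a) * nL r (c * a)) =
        (∫ a in (0:ℝ)..(r - v), W (a - v) * (1 + v ^ 2 - v * a) * nL r (c * a)) +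
        ∫ a in (r - v)..(r + v), W (a - v) * (1 + v ^ 2 - v * a) * nL r (c * a) :=
      (intervalIntegral.integral_add_adjacent_intervals (i5 _ _) (i5 _ _)).symm
    have e4 : (∫ a in (0:ℝ)..(r - v), (W (a - v) * (1 + v ^ 2 - v * a) -
        W (a + v) * (1 + v ^ 2 + v * a)) * nL r (c * a)) =
        (∫ a in (0:ℝ)..(r - v), W (a - v) * (1 + v ^ 2 - v * a) * nL r (c * a)) -
        ∫ a in (0:ℝ)..(r - v), W (a + v) * (1 + v ^ 2 + v * a) * nL r (c * a) := by
      rw [← intervalIntegral.integral_sub (i5 _ _) (i6 _ _)]
      refine intervalIntegral.integral_congr (fun a _ => ?_)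
      ring
    rw [e4]
    unfold Qf Qd
    linear_combination e1 - e2 + e3
  -- boundary terms
  have hb1 : NR r v (r + v) = v * (r + v) * W r := by
    unfold NR
    have h : W (v - (r + v)) = W r := by
      rw [show v - (r + v) = -r by ring, W_even]
    rw [h]
    ring
  have hb2 : (v * (r - v) - 1) * W (r - v - v) + (v * (r - v) + 1) * W (r - v + v) =
      NR r v (r - v) + v * (r - v) * W r := by
    unfold NR
    have h1 : W (v - (r - v)) = W (r - v - v) := W_symm (r - v) v
    have h2 : r - v + v = r := by ring
    rw [h1, h2]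
    ring
  have hn1 : nL r (c * (r + v)) = κp * (r + v) := by
    rw [hκp, div_mul_cancel₀]
    linarith
  have hn2 : nL r (c * (r - v)) = κm * (r - v) := by
    rw [hκm, div_mul_cancel₀]
    exact hrv.ne'
  rw [hQ, hright, hn1, hn2, hb1]
  rw [hb2] at hleft
  linarith

end Pool.Agent.H357.TCD1
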