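import Pool.Agent.H770.GS.TF

/-!
# TF13: tail comparison in `k`
-/

set_option autoImplicit false

open MeasureTheory Set intervalIntegral Filter Topology

namespace Pool.Agent.H357.TF13

open Pool.Agent.Helper82.GC Pool.Agent.H770.GS

theorem zt_ge (ε : ℝ) (hε : ε ≤ 1 / 2) : 5 / 6 ≤ zt ε := by
  have h1 : ∫ u in (0:ℝ)..1, (1 - ε * u ^ 2) = 1 - ε / 3 := by
    rw [intervalIntegral.integral_sub (by simp) (by
      apply Continuous.intervalIntegrable
      fun_prop), intervalIntegral.integral_const_mul, integral_pow]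
    norm_num
    ring
  have h2 : ∫ u in (0:ℝ)..1, (1 - ε * u ^ 2) ≤ zt ε := by
    unfold zt
    refine intervalIntegral.integral_mono_on (by norm_num) ?_ ?_ ?_
    · apply Continuous.intervalIntegrable
      fun_prop
    · apply Continuous.intervalIntegrable
      fun_prop
    · intro u _
      have := Real.add_one_le_exp (-(ε * u ^ 2))
      linarith
  linarith

theorem cf_half (h2 : S_TF2) (ε x : ℝ) (hε0 : 0 < ε) (hε : ε ≤ 1 / 2) (hx : 12 / 5 ≤ x) :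
    |cf ε x| ≤ 1 / 2 := by
  obtain ⟨-, -, h3, -⟩ := h2 ε hε0
  refine (h3 x (by linarith)).trans ?_
  have h4 := zt_ge ε hε
  have h5 : 2 ≤ zt ε * x := by nlinarith
  exact one_div_le_one_div_of_le (by norm_num) h5

theorem kk_nonneg (ε : ℝ) (m : ℕ) : 0 ≤ KK3 ε m := by
  unfold KK3
  refine setIntegral_nonneg measurableSet_Ioi fun x _ => ?_
  positivity

theorem kk_le (h2 : S_TF2) (h3 : S_TF3) (ε : ℝ) (k : ℕ) (hε0 : 0 < ε) (hε : ε ≤ 1 / 2)
    (hk : 4 ≤ k) : KK3 ε (k - 1) ≤ (1 / 2) ^ (k - 4) * KK3 ε 3 := by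
  have hint := (h3 h2 ε 1 3 hε0 one_pos le_rfl).2
  unfold KK3
  rw [← MeasureTheory.integral_const_mul]
  refine setIntegral_mono_on (hint (k - 1)) ((hint 3).const_mul _) measurableSet_Ioi ?_
  intro x hx
  have hx' : 12 / 5 ≤ x := le_of_lt hx
  have h4 := cf_half h2 ε x hε0 hε hx'
  have h5 : |cf ε x| ^ (k - 1) ≤ (1 / 2) ^ (k - 4) * |cf ε x| ^ 3 := by
    have e : k - 1 = (k - 4) + 3 := by omega
    rw [e, pow_add]
    exact mul_le_mul_of_nonneg_right (pow_le_pow_left₀ (abs_nonneg _) h4 _) (by positivity)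
  rw [← mul_div_assoc]
  exact div_le_div_of_nonneg_right h5 (by positivity)

theorem sinc_low (b : ℝ) (hb : 0 < b) (hb2 : b ≤ 1 / 2) :
    2 / Real.pi ≤ Real.sinc (b * Real.pi) := by
  have hpi := Real.pi_pos
  have hx : 0 < b * Real.pi := by positivity
  rw [Real.sinc_of_ne_zero hx.ne', le_div_iff₀ hx]
  exact Real.mul_le_sin hx.le (by nlinarith)

theorem sinc_low2 (b : ℝ) (hb : 1 / 2 ≤ b) (hb2 : b ^ 2 ≤ 1 / 3) :
    1 / 2 ≤ Real.sinc (b * Real.pi) := by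
  have hpi := Real.pi_pos
  have hpi2 := Real.pi_lt_d2
  have hb3 : b ≤ 0.578 := by
    by_contra h
    rw [not_le] at h
    nlinarith
  have hx : 0 < b * Real.pi := by positivity
  have hx2 : b * Real.pi ≤ 1.8207 := by nlinarith
  have hy0 : 0 ≤ b * Real.pi - Real.pi / 2 := by nlinarith
  have hy : b * Real.pi - Real.pi / 2 ≤ 0.246 := by nlinarith
  have h1 := Real.one_sub_sq_div_two_le_cos (x := b * Real.pi - Real.pi / 2)
  rw [Real.cos_sub_pi_div_two] at h1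
  have h2 : 0.969 ≤ Real.sin (b * Real.pi) := by nlinarith
  rw [Real.sinc_of_ne_zero hx.ne', le_div_iff₀ hx]
  linarith

/-- The numerical inequality of the first case. -/
theorem num1 (b : ℝ) (n : ℕ) (hb : 0 < b) (h : 1 ≤ ((n : ℝ) + 4) * b ^ 2) :
    (1 + 1 / b) * (1 / 2) ^ n ≤ (2 / Real.pi) ^ n * 3 := by
  have hpi := Real.pi_pos
  have hpi2 := Real.pi_lt_d2
  have hn : (0 : ℝ) ≤ n := Nat.cast_nonneg n
  have h1 : (1 / b) ^ 2 ≤ (n : ℝ) + 4 := by
    rw [div_pow, one_pow, div_le_iff₀ (by positivity)]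
    exact h
  have h2 : 1 / b ≤ 2 + n / 4 := by
    have h3 : (1 / b) ^ 2 ≤ (2 + (n : ℝ) / 4) ^ 2 := by nlinarith
    exact le_of_sq_le_sq h3 (by positivity)
  have h3 : 1 + (n : ℝ) * (1 / 12) ≤ (1 + 1 / 12) ^ n :=
    one_add_mul_le_pow (by norm_num) n
  have h4 : 1 + 1 / b ≤ 3 * (13 / 12 : ℝ) ^ n := by
    have h5 : (1 + 1 / 12 : ℝ) = 13 / 12 := by norm_num
    rw [h5] at h3
    linarith
  have h5 : (13 / 12 : ℝ) ^ n * (1 / 2) ^ n ≤ (2 / Real.pi) ^ n := by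
    rw [← mul_pow]
    refine pow_le_pow_left₀ (by norm_num) ?_ n
    rw [le_div_iff₀ hpi]
    linarith
  calc (1 + 1 / b) * (1 / 2) ^ n ≤ 3 * (13 / 12 : ℝ) ^ n * (1 / 2) ^ n :=
        mul_le_mul_of_nonneg_right h4 (by positivity)
    _ = (13 / 12 : ℝ) ^ n * (1 / 2) ^ n * 3 := by ring
    _ ≤ (2 / Real.pi) ^ n * 3 := mul_le_mul_of_nonneg_right h5 (by norm_num)

theorem tf13 : S_TF13 := by
  intro h2 h3 h6 _ ε b k hε0 hε hb hb3 hk hkb
  have hpi := Real.pi_pos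
  obtain ⟨hs, -⟩ := h6 h2 ε hε0
  have hK := kk_nonneg ε 3
  have hkk := kk_le h2 h3 ε k hε0 hε hk
  have hb1 : b ≤ 1 := by nlinarith
  have hfs : Real.sinc (b * Real.pi) ≤ cf ε (b * Real.pi) :=
    hs _ (by positivity) (by nlinarith)
  have ek : k = (k - 4) + 4 := by omega
  constructor
  · intro hb2
    have h7 := sinc_low b hb hb2
    have h8 : (2 / Real.pi) ^ k ≤ cf ε (b * Real.pi) ^ k :=
      pow_le_pow_left₀ (by positivity) (h7.trans hfs) k
    have h9 : (1 + 1 / b) * (1 / 2) ^ (k - 4) ≤ (2 / Real.pi) ^ (k - 4) * 3 := by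
      refine num1 b (k - 4) hb ?_
      have e : ((k - 4 : ℕ) : ℝ) + 4 = k := by
        rw [Nat.cast_sub hk]
        push_cast
        ring
      rw [e]
      exact hkb
    have e1 : (2 / Real.pi) ^ k * (3 * (Real.pi / 2) ^ 4 * KK3 ε 3) =
        (2 / Real.pi) ^ (k - 4) * 3 * KK3 ε 3 := by
      rw [show (2 / Real.pi) ^ k = (2 / Real.pi) ^ (k - 4) * (2 / Real.pi) ^ 4 by
        rw [← pow_add, ← ek]]
      field_simp
    calc (1 + 1 / b) * KK3 ε (k - 1) ≤ (1 + 1 / b) * ((1 / 2) ^ (k - 4) * KK3 ε 3) :=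
          mul_le_mul_of_nonneg_left hkk (by positivity)
      _ = (1 + 1 / b) * (1 / 2) ^ (k - 4) * KK3 ε 3 := by ring
      _ ≤ (2 / Real.pi) ^ (k - 4) * 3 * KK3 ε 3 := mul_le_mul_of_nonneg_right h9 hK
      _ = (2 / Real.pi) ^ k * (3 * (Real.pi / 2) ^ 4 * KK3 ε 3) := e1.symm
      _ ≤ cf ε (b * Real.pi) ^ k * (3 * (Real.pi / 2) ^ 4 * KK3 ε 3) :=
          mul_le_mul_of_nonneg_right h8 (by positivity)
  · intro hb2
    have h7 := sinc_low2 b hb2 hb3
    set S := Real.sinc (b * Real.pi) with hS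
    have hSp : 0 < S := by linarith
    have h8 : S ^ k ≤ cf ε (b * Real.pi) ^ k := pow_le_pow_left₀ hSp.le hfs k
    have h9 : (1 / 2 : ℝ) ^ (k - 4) ≤ S ^ (k - 4) := pow_le_pow_left₀ (by norm_num) h7 _
    have e1 : S ^ k * ((1 + 1 / b) / S ^ 4 * KK3 ε 3) = (1 + 1 / b) * (S ^ (k - 4) * KK3 ε 3) := by
      rw [show S ^ k = S ^ (k - 4) * S ^ 4 by rw [← pow_add, ← ek]]
      field_simp
    calc (1 + 1 / b) * KK3 ε (k - 1) ≤ (1 + 1 / b) * ((1 / 2) ^ (k - 4) * KK3 ε 3) :=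
          mul_le_mul_of_nonneg_left hkk (by positivity)
      _ ≤ (1 + 1 / b) * (S ^ (k - 4) * KK3 ε 3) :=
          mul_le_mul_of_nonneg_left (mul_le_mul_of_nonneg_right h9 hK) (by positivity)
      _ = S ^ k * ((1 + 1 / b) / S ^ 4 * KK3 ε 3) := e1.symm
      _ ≤ cf ε (b * Real.pi) ^ k * ((1 + 1 / b) / S ^ 4 * KK3 ε 3) :=
          mul_le_mul_of_nonneg_right h8 (by positivity)

end Pool.Agent.H357.TF13
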