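import Mathlib
import Pool.Agent.H133.ZM.Stm

set_option autoImplicit false

namespace Pool.Agent.H357.ZMdeg

open Pool.Agent.H133.ZM Finset

theorem isM_insert {V : Type} [DecidableEq V] {G : SimpleGraph V} {M : Finset (Sym2 V)}
    (hM : IsM G M) {u v : V} (huv : G.Adj u v) (hu : ∀ f ∈ M, u ∉ f) (hv : ∀ f ∈ M, v ∉ f) :
    IsM G (insert s(u, v) M) := by
  refine ⟨?_, ?_⟩
  · intro e he
    rcases mem_insert.1 he with rfl | he
    · exact (SimpleGraph.mem_edgeSet G).2 huv
    · exact hM.1 e he
  · intro e he f hf hef w hwe hwf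
    rcases mem_insert.1 he with h1 | h1 <;> rcases mem_insert.1 hf with h2 | h2
    · exact hef (h1.trans h2.symm)
    · rw [h1, Sym2.mem_iff] at hwe
      rcases hwe with rfl | rfl
      · exact hu f h2 hwf
      · exact hv f h2 hwf
    · rw [h2, Sym2.mem_iff] at hwf
      rcases hwf with rfl | rfl
      · exact hu e h1 hwe
      · exact hv e h1 hwe
    · exact hM.2 e h1 f h2 hef w hwe hwf

theorem isM_mono {V : Type} {G : SimpleGraph V} {M M' : Finset (Sym2 V)} (hM : IsM G M)
    (h : M' ⊆ M) : IsM G M' :=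
  ⟨fun e he => hM.1 e (h he), fun e he f hf => hM.2 e (h he) f (h hf)⟩

/-- replacing an edge by two edges -/
theorem augment {V : Type} [DecidableEq V] {G : SimpleGraph V} {M : Finset (Sym2 V)}
    (hM : IsM G M) {x y p q : V} (hpq : s(p, q) ∈ M) (hx : ∀ f ∈ M, x ∉ f) (hy : ∀ f ∈ M, y ∉ f)
    (hxy : x ≠ y) (hxp : G.Adj x p) (hyq : G.Adj y q) :
    ∃ M', IsM G M' ∧ M'.card = M.card + 1 := by
  have hne : p ≠ q := by
    have := hM.1 _ hpq
    exact ((SimpleGraph.mem_edgeSet G).1 this).ne
  have hxe := hx _ hpq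
  have hye := hy _ hpq
  rw [Sym2.mem_iff] at hxe hye
  push Not at hxe hye
  have hp : ∀ f ∈ M.erase s(p, q), p ∉ f := by
    intro f hf h
    exact hM.2 f (mem_of_mem_erase hf) _ hpq (ne_of_mem_erase hf) p h (Sym2.mem_mk_left p q)
  have hq : ∀ f ∈ M.erase s(p, q), q ∉ f := by
    intro f hf h
    exact hM.2 f (mem_of_mem_erase hf) _ hpq (ne_of_mem_erase hf) q h (Sym2.mem_mk_right p q)
  have h0 : IsM G (M.erase s(p, q)) := isM_mono hM (erase_subset _ _)
  have h1 : IsM G (insert s(y, q) (M.erase s(p, q))) :=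
    isM_insert h0 hyq (fun f hf => hy f (mem_of_mem_erase hf)) hq
  have hx1 : ∀ f ∈ insert s(y, q) (M.erase s(p, q)), x ∉ f := by
    intro f hf
    rcases mem_insert.1 hf with rfl | hf
    · rw [Sym2.mem_iff]
      push Not
      exact ⟨hxy, hxe.2⟩
    · exact hx f (mem_of_mem_erase hf)
  have hp1 : ∀ f ∈ insert s(y, q) (M.erase s(p, q)), p ∉ f := by
    intro f hf
    rcases mem_insert.1 hf with rfl | hf
    · rw [Sym2.mem_iff]
      push Not
      exact ⟨hye.1.symm, hne⟩
    · exact hp f hf
  refine ⟨_, isM_insert h1 hxp hx1 hp1, ?_⟩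
  rw [card_insert_of_notMem (fun h => hx1 _ h (Sym2.mem_mk_left x p)),
    card_insert_of_notMem (fun h => hy _ (mem_of_mem_erase h) (Sym2.mem_mk_left y q)),
    card_erase_of_mem hpq]
  have : 0 < M.card := card_pos.2 ⟨_, hpq⟩
  omega

theorem t_deg : S_deg := by
  classical
  intro V _ _ G k hdeg hk
  -- a maximum matching
  obtain ⟨M, hM, hmax⟩ : ∃ M, IsM G M ∧ ∀ M', IsM G M' → M'.card ≤ M.card := by
    have hfin : ((univ : Finset (Finset (Sym2 V))).filter (fun M => IsM G M)).Nonempty :=
      ⟨∅, mem_filter.2 ⟨mem_univ _, fun e he => absurd he (notMem_empty e),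
        fun e he => absurd he (notMem_empty e)⟩⟩
    obtain ⟨M, hM, h⟩ := exists_max_image _ (fun M => M.card) hfin
    refine ⟨M, (mem_filter.1 hM).2, fun M' hM' => h M' (mem_filter.2 ⟨mem_univ _, hM'⟩)⟩
  by_cases hMk : k ≤ M.card
  · obtain ⟨M', hM', hc⟩ := exists_subset_card_eq hMk
    exact ⟨M', isM_mono hM hM', hc⟩
  exfalso
  push Not at hMk
  -- covered vertices
  set C : Finset V := M.biUnion (fun e => univ.filter (fun v => v ∈ e)) with hC
  have hcard2 : ∀ e : Sym2 V, (univ.filter (fun v => v ∈ e)).card ≤ 2 := by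
    intro e
    induction e with
    | _ p q =>
      refine (card_le_card (t := {p, q}) ?_).trans card_le_two
      intro v hv
      rw [mem_filter, Sym2.mem_iff] at hv
      rw [mem_insert, mem_singleton]
      exact hv.2
  have hCc : C.card ≤ 2 * M.card := by
    refine card_biUnion_le.trans ?_
    refine (sum_le_sum (fun e _ => hcard2 e)).trans ?_
    rw [sum_const, smul_eq_mul, mul_comm]
  have hunc : ∀ v, v ∉ C ↔ ∀ f ∈ M, v ∉ f := by
    intro v
    rw [hC, mem_biUnion]
    push Not
    refine forall_congr' fun f => forall_congr' fun _ => ?_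
    simp
  have h2 : 1 < (univ \ C).card := by
    rw [card_sdiff_of_subset (subset_univ _), card_univ]
    omega
  obtain ⟨x, hx, y, hy, hxy⟩ := one_lt_card.1 h2
  have hx' := (hunc x).1 (mem_sdiff.1 hx).2
  have hy' := (hunc y).1 (mem_sdiff.1 hy).2
  -- degrees
  have hN : ∀ w, (∀ f ∈ M, w ∉ f) →
      dg G w ≤ ∑ e ∈ M, (univ.filter (fun v => v ∈ e ∧ G.Adj w v)).card := by
    intro w hw
    have h3 : (univ.filter (fun v => G.Adj w v)) ⊆
        M.biUnion (fun e => univ.filter (fun v => v ∈ e ∧ G.Adj w v)) := by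
      intro v hv
      have hadj := (mem_filter.1 hv).2
      rw [mem_biUnion]
      by_contra hcon
      push Not at hcon
      have hv2 : ∀ f ∈ M, v ∉ f := by
        intro f hf h
        exact hcon f hf (mem_filter.2 ⟨mem_univ _, h, hadj⟩)
      have h4 := hmax _ (isM_insert hM hadj hw hv2)
      rw [card_insert_of_notMem (fun h => hw _ h (Sym2.mem_mk_left w v))] at h4
      omega
    have h5 : dg G w = (univ.filter (fun v => G.Adj w v)).card := by
      unfold dg
      rw [← Set.ncard_coe_finset]
      congr 1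
      ext v
      simp [SimpleGraph.mem_neighborSet]
    rw [h5]
    exact (card_le_card h3).trans card_biUnion_le
  have hedge : ∀ e ∈ M, (univ.filter (fun v => v ∈ e ∧ G.Adj x v)).card +
      (univ.filter (fun v => v ∈ e ∧ G.Adj y v)).card ≤ 2 := by
    intro e he
    induction e with
    | _ p q =>
      have hc : ∀ w, (univ.filter (fun v => v ∈ s(p, q) ∧ G.Adj w v)).card ≤
          (if G.Adj w p then 1 else 0) + (if G.Adj w q then 1 else 0) := by
        intro w
        have h6 : univ.filter (fun v => v ∈ s(p, q) ∧ G.Adj w v) ⊆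
            (if G.Adj w p then {p} else ∅) ∪ (if G.Adj w q then {q} else ∅) := by
          intro v hv
          rw [mem_filter, Sym2.mem_iff] at hv
          obtain ⟨_, h7 | h7, h8⟩ := hv
          · subst h7
            rw [mem_union, if_pos h8]
            left
            simp
          · subst h7
            rw [mem_union, if_pos h8]
            right
            simp
        refine (card_le_card h6).trans ((card_union_le _ _).trans ?_)
        refine Nat.add_le_add ?_ ?_
        · split_ifs <;> simp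
        · split_ifs <;> simp
      have hcx := hc x
      have hcy := hc y
      have hA : ¬ (G.Adj x p ∧ G.Adj y q) := by
        rintro ⟨h1, h2⟩
        obtain ⟨M', hM', hcM⟩ := augment hM he hx' hy' hxy h1 h2
        have := hmax M' hM'
        omega
      have hB : ¬ (G.Adj x q ∧ G.Adj y p) := by
        rintro ⟨h1, h2⟩
        have he' : s(q, p) ∈ M := by rw [Sym2.eq_swap]; exact he
        obtain ⟨M', hM', hcM⟩ := augment hM he' hx' hy' hxy h1 h2
        have := hmax M' hM'
        omega
      by_cases a1 : G.Adj x p <;> by_cases a2 : G.Adj y q <;> by_cases a3 : G.Adj x q <;>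
        by_cases a4 : G.Adj y p <;> simp only [a1, a2, a3, a4, if_true, if_false, and_self,
          not_true_eq_false, and_true, and_false, not_false_eq_true] at hA hB hcx hcy <;> omega
  have hx3 := (hdeg x).trans (hN x hx')
  have hy3 := (hdeg y).trans (hN y hy')
  have hsum : ∑ e ∈ M, (univ.filter (fun v => v ∈ e ∧ G.Adj x v)).card +
      ∑ e ∈ M, (univ.filter (fun v => v ∈ e ∧ G.Adj y v)).card ≤ 2 * M.card := by
    rw [← sum_add_distrib]
    refine (sum_le_sum hedge).trans ?_
    rw [sum_const, smul_eq_mul, mul_comm]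
  omega

end Pool.Agent.H357.ZMdeg
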